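import Pool.Agent.T2h13.LG.Str
import Pool.Agent.W619.X.Moved

/-!
Orders of norms, and the places over the boundary of the base.
-/

set_option autoImplicit false
set_option linter.overlappingInstances false
set_option linter.unusedSectionVars false
set_option maxHeartbeats 4000000
set_option synthInstance.maxHeartbeats 400000

open FF Pool.Agent.W603.LV Pool.Agent.W602.GT Pool.Agent.W619.PQ Pool.Agent.Y172
open IntermediateField Polynomial
open Module (finrank)
open Pool.Agent.T2h13.AF (base baseInc mem_base coeff_base finrank_le_of_deg res)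

namespace Pool.Agent.T2h13.LG

section

variable {k K F Ω : Type} [Field k] [CharZero k] [Field K] [Field F] [Algebra k K] [Algebra k F]
  [Algebra K F] [IsScalarTower k K F] [FiniteDimensional K F] [Field Ω] [Algebra k Ω]
  [Algebra K Ω] [Algebra F Ω] [IsScalarTower K F Ω] [IsScalarTower k K Ω] [IsScalarTower k F Ω]
  [FiniteDimensional K Ω] [FiniteDimensional F Ω] [IsGalois K Ω]

theorem conj_over {q : Place k K} {Q : Place k Ω} {e : ℕ} (hQ : Over Q q e) (σ : Ω ≃ₐ[K] Ω) :
    ∃ (w : Place k F) (e1 e2 : ℕ), Over w q e2 ∧ 0 < e1 ∧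
      ∀ f : F, Q.ord (σ (algebraMap F Ω f)) = e1 * w.ord f := by
  obtain ⟨w, e1, hw⟩ := exists_below (K := F) (Q.comp (σ.restrictScalars k))
  obtain ⟨q2, e2, hq2⟩ := exists_below (K := K) w
  have h1 : Over (Q.comp (σ.restrictScalars k)) q2 (e1 * e2) := by
    refine ⟨Nat.mul_pos hw.1 hq2.1, fun z => ?_⟩
    rw [IsScalarTower.algebraMap_apply K F Ω, hw.2, hq2.2]
    push_cast
    ring
  have h2 : Over (Q.comp (σ.restrictScalars k)) q e := by
    refine ⟨hQ.1, fun z => ?_⟩
    change Q.ord (σ (algebraMap K Ω z)) = _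
    rw [σ.commutes, hQ.2]
  have h3 := (Pool.Agent.Y172.over_unique' h1 h2).1
  subst h3
  exact ⟨w, e1, e2, hq2, hw.1, fun f => hw.2 f⟩

theorem norm_ord_aux (q : Place k K) {f : F} (hf : f ≠ 0) {Q : Place k Ω} {e : ℕ}
    (hQ : Over Q q e) :
    (e : ℤ) * (finrank F Ω * q.ord (Algebra.norm K f)) =
      ∑ σ : Ω ≃ₐ[K] Ω, Q.ord (σ (algebraMap F Ω f)) := by
  have h1 : Algebra.norm K (algebraMap F Ω f) = Algebra.norm K f ^ finrank F Ω := by
    rw [← Algebra.norm_norm (R := K) (S := F) (A := Ω), Algebra.norm_algebraMap, map_pow]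
  have hf' : algebraMap F Ω f ≠ 0 := (_root_.map_ne_zero _).2 hf
  have h2 := Algebra.norm_eq_prod_automorphisms K (algebraMap F Ω f)
  rw [h1] at h2
  have h3 : Q.ord (algebraMap K Ω (Algebra.norm K f ^ finrank F Ω)) =
      ∑ σ : Ω ≃ₐ[K] Ω, Q.ord (σ (algebraMap F Ω f)) := by
    rw [h2, ord_prod _ _ _ fun σ _ => by simpa using hf]
  rw [← h3, hQ.2, q.ord_pow]

theorem norm_ord' (Ω : Type) [Field Ω] [Algebra k Ω]
    [Algebra K Ω] [Algebra F Ω] [IsScalarTower K F Ω] [IsScalarTower k K Ω] [IsScalarTower k F Ω]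
    [FiniteDimensional K Ω] [FiniteDimensional F Ω] [IsGalois K Ω]
    (q : Place k K) {f : F} (hf : f ≠ 0)
    (h : ∀ (w : Place k F) (e : ℕ), Over w q e → 0 ≤ w.ord f) :
    ((∃ (w : Place k F) (e : ℕ), Over w q e ∧ 0 < w.ord f) → 0 < q.ord (Algebra.norm K f)) ∧
      ((∀ (w : Place k F) (e : ℕ), Over w q e → w.ord f = 0) →
        q.ord (Algebra.norm K f) = 0) := by
  have hpos : (0 : ℤ) < finrank F Ω := by
    have : 0 < finrank F Ω := Module.finrank_pos
    exact_mod_cast this
  constructor
  · rintro ⟨w, e, hw, hwf⟩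
    obtain ⟨Q, e', hQ⟩ := exists_above (K := F) (L := Ω) w
    have hQq : Over Q q (e' * e) := by
      refine ⟨Nat.mul_pos hQ.1 hw.1, fun z => ?_⟩
      rw [IsScalarTower.algebraMap_apply K F Ω, hQ.2, hw.2]
      push_cast
      ring
    have h1 := norm_ord_aux (Ω := Ω) q hf hQq
    have h2 : 0 < ∑ σ : Ω ≃ₐ[K] Ω, Q.ord (σ (algebraMap F Ω f)) := by
      refine Finset.sum_pos' (fun σ _ => ?_) ⟨1, Finset.mem_univ _, ?_⟩
      · obtain ⟨w', e1, e2, hw', -, hσ⟩ := conj_over (F := F) hQq σ
        rw [hσ]
        exact mul_nonneg (Int.natCast_nonneg _) (h w' e2 hw')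
      · change 0 < Q.ord (algebraMap F Ω f)
        rw [hQ.2]
        have := hQ.1
        positivity
    rw [← h1] at h2
    by_contra hcon
    push Not at hcon
    have h3 : (0 : ℤ) ≤ (e' * e : ℕ) := Int.natCast_nonneg _
    have h4 : (finrank F Ω : ℤ) * q.ord (Algebra.norm K f) ≤ 0 := by nlinarith
    nlinarith
  · intro h0
    obtain ⟨Q, e, hQ⟩ := exists_above (K := K) (L := Ω) q
    have h1 := norm_ord_aux (Ω := Ω) q hf hQ
    rw [Finset.sum_eq_zero fun σ _ => ?_] at h1
    · have he : (e : ℤ) ≠ 0 := by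
        have := hQ.1
        positivity
      have h2 := (mul_eq_zero.1 h1).resolve_left he
      exact (mul_eq_zero.1 h2).resolve_left hpos.ne'
    · obtain ⟨w', e1, e2, hw', -, hσ⟩ := conj_over (F := F) hQ σ
      rw [hσ, h0 w' e2 hw', mul_zero]

end

section

variable {k K F : Type} [Field k] [CharZero k] [Field K] [Field F] [Algebra k K] [Algebra k F]
  [Algebra K F] [IsScalarTower k K F] [FiniteDimensional K F]

/-- **The order of a norm.** -/
theorem norm_ord (q : Place k K) {f : F} (hf : f ≠ 0)
    (h : ∀ (w : Place k F) (e : ℕ), Over w q e → 0 ≤ w.ord f) :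
    ((∃ (w : Place k F) (e : ℕ), Over w q e ∧ 0 < w.ord f) →
      0 < q.ord ((minpoly K f).coeff 0)) ∧
      ((∀ (w : Place k F) (e : ℕ), Over w q e → w.ord f = 0) →
        q.ord ((minpoly K f).coeff 0) = 0) := by
  have hcK : CharZero K := charZero_of_injective_algebraMap (algebraMap k K).injective
  have hN : Normal K (normalClosure K F (AlgebraicClosure F)) := inferInstance
  have hG : IsGalois K (normalClosure K F (AlgebraicClosure F)) := ⟨⟩
  have hfd : FiniteDimensional F (normalClosure K F (AlgebraicClosure F)) :=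
    Module.Finite.of_restrictScalars_finite K F _
  have hT : IsScalarTower k F (normalClosure K F (AlgebraicClosure F)) :=
    IsScalarTower.of_algebraMap_eq fun c => by
      apply Subtype.ext
      change algebraMap k (AlgebraicClosure F) c = _
      rfl
  obtain ⟨h1, h2⟩ := norm_ord' (normalClosure K F (AlgebraicClosure F)) q hf h
  have hint : IsIntegral K f := Algebra.IsIntegral.isIntegral f
  have h3 : Algebra.norm K f = ((-1) ^ (minpoly K f).natDegree * (minpoly K f).coeff 0) ^
      finrank K⟮f⟯ F := by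
    rw [Algebra.norm_eq_norm_adjoin]
    congr 1
    have h4 := Algebra.PowerBasis.norm_gen_eq_coeff_zero_minpoly (adjoin.powerBasis hint)
    rw [adjoin.powerBasis_gen, IntermediateField.minpoly_gen, adjoin.powerBasis_dim] at h4
    exact h4
  have h0 : (minpoly K f).coeff 0 ≠ 0 := minpoly.coeff_zero_ne_zero hint hf
  have h4 : q.ord (Algebra.norm K f) = finrank K⟮f⟯ F * q.ord ((minpoly K f).coeff 0) := by
    have h5 : ((-1) ^ (minpoly K f).natDegree : K) ≠ 0 := pow_ne_zero _ (by norm_num)
    have h6 : q.ord ((-1) ^ (minpoly K f).natDegree : K) = 0 := by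
      rcases neg_one_pow_eq_or K (minpoly K f).natDegree with h | h
      · rw [h, q.ord_one]
      · rw [h, q.ord_neg, q.ord_one]
    rw [h3, q.ord_pow, q.ord_mul h5 h0, h6, zero_add]
  have hpos : (0 : ℤ) < finrank K⟮f⟯ F := by
    have : 0 < finrank K⟮f⟯ F := Module.finrank_pos
    exact_mod_cast this
  constructor
  · intro h5
    have h6 := h1 h5
    rw [h4] at h6
    exact (mul_pos_iff_of_pos_left hpos).1 h6
  · intro h5
    have h6 := h2 h5
    rw [h4] at h6
    exact (mul_eq_zero.1 h6).resolve_left hpos.ne'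

end

section

variable {K : Type} [Field K] [Algebra ℂ K] [Algebra.EssFiniteType ℂ K] {n r : ℕ}
  {L : Type} [Field L] [Algebra ℂ L] [Algebra L K] [IsScalarTower ℂ L K] [FiniteDimensional L K]

/-- **The places over the boundary of the base.** -/
theorem over_bd {E : IntermediateField ℂ K} [Algebra.EssFiniteType ℂ E]
    (hcl : ∀ z : K, IsAlgebraic E z → z ∈ E) {x : Fin n → E}
    (hsep : ∀ (σ : IntermediateField.adjoin L (E : Set K) →ₐ[L] AlgebraicClosure K) (e : K)
      (he : e ∈ E), IsAlgebraic (IntermediateField.adjoin ℂ (Set.range fun j => (x j : K)))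
        (σ ⟨e, IntermediateField.subset_adjoin L _ he⟩))
    {R : Place ℂ (base L E)} {R' : Place ℂ E} {e : ℕ} (he : 0 < e)
    (hR : ∀ f : base L E, R'.ord (baseInc L E f) = e * R.ord f) {P : Place ℂ L} {e1 : ℕ}
    (hP : Over P R e1) :
    ∃ (Q : Place ℂ K) (e2 e3 : ℕ), Over Q P e2 ∧ Over Q R' e3 := by
  classical
  let iA : Algebra (base L E) E := (baseInc L E).toAlgebra
  have hT1 : IsScalarTower ℂ (base L E) E := IsScalarTower.of_algebraMap_eq fun c =>
    Subtype.ext (IsScalarTower.algebraMap_apply ℂ L K c)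
  have hcL : CharZero L := charZero_of_injective_algebraMap (algebraMap ℂ L).injective
  have hcZ : CharZero (base L E) := charZero_of_injective_algebraMap (algebraMap ℂ _).injective
  have hRR : Over R' R e := ⟨he, hR⟩
  -- the minimal polynomials
  have hmin : ∀ f : E, IsIntegral (base L E) f ∧
      minpoly L (f : K) = (minpoly (base L E) f).map (algebraMap (base L E) L) := by
    intro f
    have hint : IsIntegral L (f : K) := Algebra.IsIntegral.isIntegral _
    have hmonic := minpoly.monic hint
    have hlift : minpoly L (f : K) ∈ Polynomial.lifts (algebraMap (base L E) L) := by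
      rw [Polynomial.lifts_iff_coeff_lifts]
      intro i
      exact ⟨⟨_, coeff_base hcl hsep f.2 i⟩, rfl⟩
    obtain ⟨q, hq, hqd, hqm⟩ := Polynomial.lifts_and_natDegree_eq_and_monic hlift hmonic
    have h0 : Polynomial.aeval f q = 0 := by
      apply Subtype.ext
      have h1 : ((Polynomial.aeval f q : E) : K) = Polynomial.aeval (f : K) (minpoly L (f : K)) := by
        rw [← hq, Polynomial.aeval_def, Polynomial.aeval_def, Polynomial.eval₂_map]
        change E.val.toRingHom _ = _
        rw [Polynomial.hom_eval₂]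
        rfl
      rw [h1, minpoly.aeval]
      rfl
    have hZint : IsIntegral (base L E) f := ⟨q, hqm, h0⟩
    refine ⟨hZint, ?_⟩
    have h1 : (minpoly (base L E) f).natDegree ≤ q.natDegree :=
      Polynomial.natDegree_le_of_dvd (minpoly.dvd _ _ h0) hqm.ne_zero
    have h2 : Polynomial.aeval (f : K) ((minpoly (base L E) f).map (algebraMap (base L E) L)) =
        0 := by
      have h3 : Polynomial.aeval (f : K) ((minpoly (base L E) f).map (algebraMap (base L E) L)) =
          ((Polynomial.aeval f (minpoly (base L E) f) : E) : K) := by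
        rw [Polynomial.aeval_def, Polynomial.aeval_def, Polynomial.eval₂_map]
        change _ = E.val.toRingHom _
        rw [Polynomial.hom_eval₂]
        rfl
      rw [h3, minpoly.aeval]
      rfl
    refine (Polynomial.eq_of_monic_of_dvd_of_natDegree_le hmonic
      ((minpoly.monic hZint).map _) (minpoly.dvd _ _ h2) ?_).symm
    rw [(minpoly.monic hZint).natDegree_map, ← hqd]
    exact h1
  have hess : Algebra.EssFiniteType (base L E) E := Algebra.EssFiniteType.of_comp ℂ (base L E) E
  have hdeg : ∀ f : E, IsIntegral (base L E) f ∧ (minpoly (base L E) f).natDegree ≤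
      finrank L (IntermediateField.adjoin L (E : Set K)) := by
    intro f
    refine ⟨(hmin f).1, ?_⟩
    have h1 : (minpoly L (f : K)).natDegree = (minpoly (base L E) f).natDegree := by
      rw [(hmin f).2, (minpoly.monic (hmin f).1).natDegree_map]
    rw [← h1]
    have hfd : FiniteDimensional L (IntermediateField.adjoin L (E : Set K)) := inferInstance
    have h2 := minpoly.natDegree_le (A := L)
      (⟨f, IntermediateField.subset_adjoin L _ f.2⟩ : IntermediateField.adjoin L (E : Set K))
    have h3 : minpoly L (⟨f, IntermediateField.subset_adjoin L _ f.2⟩ :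
        IntermediateField.adjoin L (E : Set K)) = minpoly L (f : K) :=
      (minpoly.algebraMap_eq (algebraMap (IntermediateField.adjoin L (E : Set K)) K).injective
        _).symm
    rwa [h3] at h2
  obtain ⟨hfin, -⟩ := finrank_le_of_deg hdeg
  -- the separating function
  obtain ⟨S, T, hS, -, -⟩ := exists_places_over (K' := E) R
  obtain ⟨z, hz0, hz1, hz2⟩ := sep_many (S.erase R') R' (Finset.notMem_erase R' S)
  obtain ⟨hz3, hz4⟩ := ord_one_add_of_neg hz0 hz1
  obtain ⟨f, hf⟩ : ∃ f : E, f = (1 + z)⁻¹ := ⟨_, rfl⟩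
  have hf0 : f ≠ 0 := by
    rw [hf]
    exact inv_ne_zero hz3
  have hfR' : 0 < R'.ord f := by
    rw [hf, R'.ord_inv, hz4]
    omega
  have hfR : ∀ w ∈ S, w ≠ R' → w.ord f = 0 := by
    intro w hw hne
    have h1 := hz2 w (Finset.mem_erase.2 ⟨hne, hw⟩)
    have h2 := ord_one_add_of_pos hz0 h1
    rw [hf, w.ord_inv, h2.2, neg_zero]
  have hpos := (norm_ord (K := base L E) (F := E) R hf0 (fun w e' hw => by
    by_cases hne : w = R'
    · rw [hne]
      exact hfR'.le
    · exact (hfR w (hS w e' hw) hne).ge)).1 ⟨R', e, hRR, hfR'⟩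
  by_contra hcon
  push Not at hcon
  -- the orders over `P` are zero
  have hK0 : ∀ (Q : Place ℂ K) (e' : ℕ), Over Q P e' → Q.ord (f : K) = 0 := by
    intro Q e' hQ
    have hne : ∃ g : E, Q.ord (algebraMap E K g) ≠ 0 := by
      obtain ⟨g, -, hg⟩ := R.surj
      refine ⟨baseInc L E g, ?_⟩
      have h1 : algebraMap E K (baseInc L E g) = algebraMap L K (g : L) := rfl
      have h2 : (g : L) = algebraMap (base L E) L g := rfl
      rw [h1, hQ.2, h2, hP.2, hg]
      have := hQ.1
      have := hP.1
      positivity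
    obtain ⟨e3, R'', hR''⟩ := exists_over Q hne
    have hover : ∃ e4, Over R'' R e4 := by
      obtain ⟨R3, e4, hR3⟩ := exists_below (K := base L E) R''
      have hfdK : IsScalarTower (base L E) E K := IsScalarTower.of_algebraMap_eq fun z => rfl
      have h1 : ∀ g : base L E, Q.ord (algebraMap (base L E) K g) =
          ((e3 * e4 : ℕ) : ℤ) * R3.ord g := by
        intro g
        have h2 : algebraMap (base L E) K g = algebraMap E K (algebraMap (base L E) E g) := rfl
        rw [h2, hR''.2, hR3.2]
        push_cast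
        ring
      have h2 : ∀ g : base L E, Q.ord (algebraMap (base L E) K g) =
          ((e' * e1 : ℕ) : ℤ) * R.ord g := by
        intro g
        have h2 : algebraMap (base L E) K g = algebraMap L K (algebraMap (base L E) L g) := rfl
        rw [h2, hQ.2, hP.2]
        push_cast
        ring
      have h3 := (Pool.Agent.Y172.over_unique' (Q := Q) (P := R3) (P' := R)
        ⟨Nat.mul_pos hR''.1 hR3.1, h1⟩ ⟨Nat.mul_pos hQ.1 hP.1, h2⟩).1
      subst h3
      exact ⟨e4, hR3⟩
    obtain ⟨e4, he4⟩ := hover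
    have hne' : R'' ≠ R' := by
      rintro rfl
      exact hcon Q e' e3 hQ hR''
    have h5 := hfR R'' (hS R'' e4 he4) hne'
    have h6 : (f : K) = algebraMap E K f := rfl
    rw [h6, hR''.2, h5, mul_zero]
  have hfK : (f : K) ≠ 0 := fun h => hf0 (Subtype.ext h)
  have hzero := (norm_ord (K := L) (F := K) P hfK (fun w e' hw => (hK0 w e' hw).ge)).2 hK0
  rw [(hmin f).2, Polynomial.coeff_map, hP.2] at hzero
  have h1 := hP.1
  have h2 := (mul_eq_zero.1 hzero).resolve_left (by positivity)
  omega

end

end Pool.Agent.T2h13.LG
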