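import Pool.Agent.T2h13.LG.Ab7
import Pool.Agent.T2h13.LG.Norm
import Pool.Agent.T2h13.AF.Ab8

/-!
The Kodaira dimension and the numerical dimension of the pairs which are dominated by a fibration of
open varieties.
-/

set_option autoImplicit false
set_option linter.overlappingInstances false
set_option linter.unusedSectionVars false
set_option maxHeartbeats 4000000
set_option synthInstance.maxHeartbeats 400000

open FF Pool.Agent.W603.LV Pool.Agent.W602.GT Pool.Agent.W619.PQ Pool.Agent.Y172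
open Pool.Agent.N145.SX (SepX)
open Module (finrank)
open Pool.Agent.T2h13.AF (rho base baseInc res Tame HorLe NuLeZero FibSec)

namespace Pool.Agent.T2h13.LG

section

variable {K : Type} [Field K] [Algebra ℂ K] [Algebra.EssFiniteType ℂ K] {n r : ℕ}
  {L : Type} [Field L] [Algebra ℂ L] [Algebra.EssFiniteType ℂ L] [Algebra L K]
  [IsScalarTower ℂ L K] [FiniteDimensional L K] {N' : ℕ} {y : Fin (N' + 1) → L}

/-- **The dimensions, lower case.** -/
theorem dims_eq (hr : 1 ≤ r) (hK : Algebra.trdeg ℂ K = (n + r : ℕ))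
    {E : IntermediateField ℂ K} [Algebra.EssFiniteType ℂ E] (hE : Algebra.trdeg ℂ E = n)
    (hcl : ∀ z : K, IsAlgebraic E z → z ∈ E) {x : Fin n → E} (hx : IsTranscendenceBasis ℂ x)
    {BE : Place ℂ E → Prop} {BL : Place ℂ L → Prop} (hB : ImgBd E BE BL) {g h : ℕ}
    (hS : SepX x BE g) (hh : 1 ≤ h)
    (hg : (h + 1) * finrank L (IntermediateField.adjoin L (E : Set K)) < g)
    (hfew : FewLog E r (fun w => BL (bel L (res w))) h)
    (hy : NormalModel y) {Δ : Place ℂ L → ℚ} (hΔ : Effective y Δ)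
    (hΔB : ∀ P, IsPrimeDivisor y P → BL P → (∃ z : L, algebraMap L K z ∈ E ∧ P.ord z ≠ 0) →
      1 ≤ Δ P)
    {N : ℕ} (hN : 1 ≤ N) {k : ℕ} {φ : Fin (k + 1) → (Fin r → Derivation E K K) → K}
    (hφ : ∀ j, FolSec E (n + r) r N (fun Q => BL (bel L Q)) (φ j)) {D1 : Fin r → Derivation E K K}
    (hφ0 : φ 0 D1 ≠ 0) (hφi : AlgebraicIndependent E fun i : Fin k => φ i.succ D1 / φ 0 D1)
    (hT : ∀ j, Tame E y Δ r N (φ j))
    (hup : k = r ∨ ∃ Γ : Place E K → ℚ, NuLe E r Γ k ∧ HorLe E r (n + r) Γ y Δ) :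
    kodairaDim y (n + r) Δ = ((n + k : ℕ) : WithBot ℕ) ∧
      ∀ A, Effective y A → Integral y A → numericalDim y (n + r) Δ A = ((n + k : ℕ) : EReal) := by
  have hL : Algebra.trdeg ℂ L = (n + r : ℕ) := Pool.Agent.Y184.NT.trdeg_below (K := K) hK
  obtain ⟨x0, E0, hx0, hE0⟩ := exists_crd hL
  have hfr0 : IsFrame E0 := fun D =>
    ⟨_, (Pool.Agent.W73.PG.PULL.expand _ hx0 E0 hE0 D).symm⟩
  have hsep := fun σ e he => sep2 hK hE hx hB hS hg hfew σ e he
  obtain ⟨h1, h2, h3, h4⟩ := str_few (L := L) hK hE hcl hx hB hS hh hg hfew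
  have hessZ : Algebra.EssFiniteType ℂ (base L E) := Pool.Agent.N999.SX.ess_any (base L E)
  have hclZ : ∀ z : L, IsAlgebraic (base L E) z → ∃ w : base L E, algebraMap (base L E) L w = z :=
    fun z hz => ⟨⟨z, h1 z hz⟩, rfl⟩
  -- the boundary
  have hbd : ∀ (P : Place ℂ L) (Q : Place ℂ K) (e : ℕ) (R : Place ℂ (base L E)) (e' : ℕ),
      IsPrimeDivisor y P → Over Q P e → Over Q R e' → BL (bel L Q) ∨ BZ L E BE R → 1 ≤ Δ P := by
    intro P Q e R e' hP hQP hQR hor
    have hbelP : bel L Q = P := (bel_eq L hQP).1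
    -- `P` is over `R`
    have hne : ∃ g : base L E, P.ord (algebraMap (base L E) L g) ≠ 0 := by
      obtain ⟨g, -, hg⟩ := R.surj
      refine ⟨g, fun h0 => ?_⟩
      have h5 := hQR.2 g
      have h6 : algebraMap (base L E) K g = algebraMap L K (algebraMap (base L E) L g) := rfl
      rw [h6, hQP.2, h0, hg] at h5
      have := hQR.1
      omega
    have hvert : ∃ z : L, algebraMap L K z ∈ E ∧ P.ord z ≠ 0 := by
      obtain ⟨g, hg⟩ := hne
      exact ⟨g, g.2, hg⟩
    refine hΔB P hP ?_ hvert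
    rcases hor with h5 | ⟨R', e3, hR', he3, hR'R⟩
    · rwa [hbelP] at h5
    · obtain ⟨e1, R1, hR1⟩ := exists_over P hne
      have h6 : R1 = R := by
        have h7 : ∀ g : base L E, Q.ord (algebraMap (base L E) K g) =
            ((e * e1 : ℕ) : ℤ) * R1.ord g := by
          intro g
          have h6 : algebraMap (base L E) K g = algebraMap L K (algebraMap (base L E) L g) := rfl
          rw [h6, hQP.2, hR1.2]
          push_cast
          ring
        exact (Pool.Agent.Y172.over_unique' (Q := Q) ⟨Nat.mul_pos hQP.1 hR1.1, h7⟩ hQR).1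
      subst h6
      obtain ⟨Q', e4, e5, hQ', hQ''⟩ := over_bd hcl hsep he3 hR'R hR1
      have h7 := hB Q' R' e5 hR' hQ''
      rwa [(bel_eq L hQ').1] at h7
  obtain ⟨m0, hm0, ω, hω, D, hD, hind⟩ := lower (Z := base L E)
    (B := fun Q => BL (bel L Q)) hK h2 hE (fun z => z.2) h3 hy hΔ h4 hN (k := k) (φ := φ)
    (fun j => (hφ j).1) (fun j => (hφ j).2) hφ0 hφi hT hbd
  refine dims hΔ hfr0 (fun A hA => ?_) hm0 hω hD hind
  rcases hup with hkr | ⟨Γ, hν, hH⟩
  · -- the trivial bound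
    subst hkr
    have h5 := upper (Z := L) (n := n + k) (r := 0) (M0 := 1) (k0 := 0) hy hL hL hΔ hA hx0 hE0
      (fun m hm l f _ => by
        rw [pow_zero, mul_one]
        exact (Submodule.finrank_le _).trans (by rw [Module.finrank_self]))
    exact h5
  · exact upper_fib (Z := base L E) hr hK h2 hE (fun z => z.2) h3 hclZ hν hy hΔ hA hH hx0 hE0

end

end Pool.Agent.T2h13.LG
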