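import Pool.Agent.T2h13.LG.Ab2
import Pool.Agent.T2h13.AF.Ab3

/-!
Sections on a pair which is dominated by a fibration of open varieties: the lower bound.
-/

set_option autoImplicit false
set_option linter.overlappingInstances false
set_option linter.unusedSectionVars false
set_option maxHeartbeats 4000000
set_option synthInstance.maxHeartbeats 400000

open FF Pool.Agent.W603.LV Pool.Agent.W602.GT Pool.Agent.W619.PQ Pool.Agent.Y172
open Pool.Agent.T2h13.AF (rho rho_apply prodForm prodForm_pluri prod_adapted prod_hor ai_pow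
  exists_den' basis_app ord_E index_le Tame trdeg_fib)

namespace Pool.Agent.T2h13.LG

/-- the indices of the products -/
def ia {n k : ℕ} : Fin (n + k + 1) → Fin (n + 1) :=
  Fin.cases 0 fun i => Fin.addCases (fun i => i.succ) (fun _ => 0) i

/-- the indices of the products -/
def ib {n k : ℕ} : Fin (n + k + 1) → Fin (k + 1) :=
  Fin.cases 0 fun i => Fin.addCases (fun _ => 0) (fun l => l.succ) i

section

variable {K : Type} [Field K] [Algebra ℂ K]

/-- independent functions on the base and on the fibre -/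
theorem ai_join {n k : ℕ} {E : IntermediateField ℂ K} {u : Fin n → E}
    (hu : AlgebraicIndependent ℂ u) {v : Fin k → K} (hv : AlgebraicIndependent E v) :
    AlgebraicIndependent ℂ
      (fun i : Fin (n + k) => Fin.addCases (motive := fun _ => K) (fun i => (u i : K)) v i) := by
  have h1 := AlgebraicIndependent.sumElim_comp (R := ℂ) (A := K) hu hv
  have h2 : (fun i : Fin (n + k) => Fin.addCases (motive := fun _ => K) (fun i => (u i : K)) v i) =
      Sum.elim v (algebraMap E K ∘ u) ∘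
      ((Equiv.sumComm (Fin n) (Fin k)).symm.symm ∘ finSumFinEquiv.symm) := by
    funext i
    refine Fin.addCases (fun j => ?_) (fun b => ?_) i
    · simp
    · simp
  rw [h2]
  exact h1.comp _ ((Equiv.injective _).comp (Equiv.injective _))

variable [Algebra.EssFiniteType ℂ K] {n r : ℕ}
  {L : Type} [Field L] [Algebra ℂ L] [Algebra.EssFiniteType ℂ L] [Algebra L K]
  [IsScalarTower ℂ L K] [FiniteDimensional L K]
  {Z : Type} [Field Z] [Algebra ℂ Z] [Algebra.EssFiniteType ℂ Z] [Algebra Z L] [Algebra Z K]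
  [IsScalarTower ℂ Z K] [IsScalarTower Z L K] {N' : ℕ} {y : Fin (N' + 1) → L}

/-- **The sections given by the forms on the base.** -/
theorem lower (hK : Algebra.trdeg ℂ K = (n + r : ℕ)) (hZ : Algebra.trdeg ℂ Z = n)
    {E : IntermediateField ℂ K} (hE : Algebra.trdeg ℂ E = n)
    (hZE : ∀ z : Z, algebraMap Z K z ∈ E) (hEZ : ∀ e ∈ E, IsAlgebraic Z e)
    (hy : NormalModel y) {Δ : Place ℂ L → ℚ} (hΔ : Effective y Δ) {BR : Place ℂ Z → Prop}
    {B : Place ℂ K → Prop} (hk : KodGe ℂ Z n BR n) {N : ℕ} (hN : 1 ≤ N) {k : ℕ}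
    {φ : Fin (k + 1) → (Fin r → Derivation E K K) → K}
    (hφ : ∀ j, IsPluri N (φ j))
    (hφv : ∀ j, ∀ Q : Place ℂ K, Divisorial (n + r) Q → (∃ z ∈ E, Q.ord z ≠ 0) →
      ∀ U : Fin r → Derivation E K K, ((∀ a, ∀ f, Q.Reg (U a f / f)) ∨
        (¬ B Q ∧ ∀ a, ∀ f, Q.Reg f → Q.Reg (U a f))) → Q.Reg (φ j U))
    {D1 : Fin r → Derivation E K K}
    (hφ0 : φ 0 D1 ≠ 0) (hφi : AlgebraicIndependent E fun i : Fin k => φ i.succ D1 / φ 0 D1)
    (hT : ∀ j, Tame E y Δ r N (φ j))
    (hbd : ∀ (P : Place ℂ L) (Q : Place ℂ K) (e : ℕ) (R : Place ℂ Z) (e' : ℕ),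
      IsPrimeDivisor y P → Over Q P e → Over Q R e' → B Q ∨ BR R → 1 ≤ Δ P) :
    ∃ m0 : ℕ, 1 ≤ m0 ∧
      ∃ ω : Fin (n + k + 1) → (Fin (n + r) → Derivation ℂ L L) → L,
        (∀ j, IsSection y (n + r) m0 (m0 • Δ) (ω j)) ∧ ∃ D, ω 0 D ≠ 0 ∧
          AlgebraicIndependent ℂ (fun i : Fin (n + k) => ω i.succ D / ω 0 D) := by
  classical
  have hL : Algebra.trdeg ℂ L = (n + r : ℕ) :=
     Pool.Agent.Y184.NT.trdeg_below (K := K) hK
  have hE0 : CharZero E := charZero_of_injective_algebraMap (algebraMap ℂ E).injective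
  obtain ⟨N0, hN0, η, hη, D0, hD0, hai⟩ := hk
  obtain ⟨t, ε, ht, hε⟩ := exists_crd hZ
  obtain ⟨x, U, hx, hU⟩ := exists_crd (trdeg_fib hK hE)
  obtain ⟨d0, hd0, hden⟩ := exists_den' hΔ
  -- the values on the frames
  have hvalφ : ∀ j, φ j D1 = (Matrix.of fun i j => D1 i (x j)).det ^ N * φ j U :=
    fun j => pluri_coord hx hU (hφ j) D1
  have hc1 : (Matrix.of fun i j => D1 i (x j)).det ^ N ≠ 0 := by
    intro h0
    rw [hvalφ, h0, zero_mul] at hφ0
    exact hφ0 rfl
  have hφU : φ 0 U ≠ 0 := by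
    intro h0
    rw [hvalφ, h0, mul_zero] at hφ0
    exact hφ0 rfl
  have hφi' : AlgebraicIndependent E (fun i : Fin k => φ i.succ U / φ 0 U) := by
    have e1 : (fun i : Fin k => φ i.succ D1 / φ 0 D1) = fun i : Fin k => φ i.succ U / φ 0 U := by
      funext i
      rw [hvalφ i.succ, hvalφ 0, mul_div_mul_left _ _ hc1]
    rwa [e1] at hφi
  have hval : ∀ j, η j D0 = (Matrix.of fun i j => D0 i (t j)).det ^ N0 * η j ε :=
    fun j => pluri_coord ht hε (hη j).1 D0
  have hc0 : (Matrix.of fun i j => D0 i (t j)).det ^ N0 ≠ 0 := by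
    intro h0
    rw [hval, h0, zero_mul] at hD0
    exact hD0 rfl
  have hη0 : η 0 ε ≠ 0 := by
    intro h0
    rw [hval, h0, mul_zero] at hD0
    exact hD0 rfl
  have hai' : AlgebraicIndependent ℂ (fun i : Fin n => η i.succ ε / η 0 ε) := by
    have e1 : (fun i : Fin n => η i.succ D0 / η 0 D0) = fun i : Fin n => η i.succ ε / η 0 ε := by
      funext i
      rw [hval i.succ, hval 0, mul_div_mul_left _ _ hc0]
    rwa [e1] at hai
  -- the frame upstairs
  obtain ⟨z, hz⟩ : ∃ z : Fin (n + r) → K, z = Fin.append (fun j => algebraMap Z K (t j)) x :=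
    ⟨_, rfl⟩
  have hzb : IsTranscendenceBasis ℂ z := by
    rw [hz]
    exact basis_app hE hZE ht hx
  choose G0 hG0 using fun i : Fin (n + r) =>
    exists_der _ hzb fun j => if i = j then 1 else 0
  let W : Fin (n + k + 1) → (Fin (n + r) → Derivation ℂ K K) → K := fun j D =>
    (prodForm t ε x U N0 N (η (ia j)) (φ (ib j)) D) ^ d0
  have hWp : ∀ j, IsPluri (N0 * N * d0) (W j) := fun j =>
    pluri_pow (prodForm_pluri t ε x U N0 N (η (ia j)) (φ (ib j))) d0
  have hWG : ∀ j, W j G0 = (algebraMap Z K (η (ia j) ε) ^ N * φ (ib j) U ^ N0) ^ d0 := by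
    intro j
    change (prodForm t ε x U N0 N (η (ia j)) (φ (ib j)) G0) ^ d0 = _
    unfold prodForm
    rw [← hz]
    have h1 : (Matrix.of fun i j => G0 i (z j) : Matrix (Fin (n + r)) (Fin (n + r)) K) = 1 := by
      ext i j
      rw [Matrix.of_apply, hG0, Matrix.one_apply]
    rw [h1, Matrix.det_one, one_pow, one_mul]
  have hreg : ∀ P ∈ {P : Place ℂ L | IsPrimeDivisor y P}, ∀ (Q : Place ℂ K) (e : ℕ),
      Over Q P e → ∀ j, ∀ G : Fin (n + r) → Derivation ℂ K K, (∀ i, DerReg Q (G i)) →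
        W j G = 0 ∨ -((N0 * N * d0 : ℕ) * (1 - e * (1 - (Δ P : ℝ)))) ≤
          (Q.ord (W j G) : ℝ) := by
    intro P hP Q e hQ j G hG
    have hPd : Divisorial (n + r) P := hP.divisorial hy hL
    have hQd : Divisorial (n + r) Q := divisorial_up hQ hPd
    have hMpos : (0 : ℝ) ≤ (N0 * N * d0 : ℕ) := Nat.cast_nonneg _
    by_cases htriv : ∃ f : Z, Q.ord (algebraMap Z K f) ≠ 0
    · obtain ⟨e', P', hP'⟩ := exists_over Q htriv
      obtain ⟨hv1, hv2⟩ := prod_vert hK hZ hZE ht hε hx hU (hη (ia j)) (hφ (ib j))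
        (hφv (ib j)) hQd hP' hG
      by_cases hb : B Q ∨ BR P'
      · -- the boundary
        have hΔP := hbd P Q e P' e' hP hQ hP' hb
        rcases hv2.pow d0 with h3 | h3
        · exact Or.inl h3
        right
        have h5 : ((((d0 : ℤ) * (-(N0 * N : ℕ))) : ℤ) : ℝ) ≤ Q.ord (W j G) := by
          exact_mod_cast h3
        refine le_trans ?_ h5
        have h6 : (1 : ℝ) ≤ (Δ P : ℝ) := by exact_mod_cast hΔP
        have h8 : (0 : ℝ) ≤ (e : ℝ) := Nat.cast_nonneg e
        have h9 : (e : ℝ) * (1 - Δ P) ≤ 0 := by nlinarith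
        have h10 := mul_le_mul_of_nonneg_left h9 hMpos
        push_cast at h10 ⊢
        nlinarith
      push Not at hb
      have h3 := (hv1 hb.2 hb.1).pow d0
      have h4 := index_le hQ hP'
      rcases h3 with h3 | h3
      · exact Or.inl h3
      right
      have h5 : ((((d0 : ℤ) * ((N0 * N : ℕ) * ((e' : ℤ) - 1)) : ℤ)) : ℝ) ≤ Q.ord (W j G) := by
        exact_mod_cast h3
      refine le_trans ?_ h5
      have h6 : (0 : ℝ) ≤ (Δ P : ℝ) := by exact_mod_cast hΔ.1 P hP
      have h7 : (e : ℝ) ≤ e' := by exact_mod_cast h4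
      have h8 : (0 : ℝ) ≤ (e : ℝ) := Nat.cast_nonneg e
      have h9 : (e : ℝ) * (1 - Δ P) - 1 ≤ e' - 1 := by nlinarith
      have h10 := mul_le_mul_of_nonneg_left h9 hMpos
      push_cast at h10 ⊢
      nlinarith
    · push Not at htriv
      have hEt : ∀ z ∈ E, Q.ord z = 0 := fun z hz => ord_E hZE hEZ htriv hz
      have hreal : ∀ U' : Fin r → Derivation E K K, (∀ a, DerReg Q (rho E (U' a))) →
          φ (ib j) U' = 0 ∨ (N : ℚ) * (e * (1 - Δ P) - 1) ≤ Q.ord (φ (ib j) U') :=
        hT (ib j) Q P e hP hQ hEt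
      have h3 := prod_hor hK hZE t ε hx hU (N0 := N0) (η (ia j)) (hφ (ib j)) hQd htriv
        (c0 := ⌈(N : ℚ) * (e * (1 - Δ P) - 1)⌉) (fun U' hU' => (hreal U' hU').imp_right
          fun h => Int.ceil_le.2 h) hG
      rcases h3.pow d0 with h3 | h3
      · exact Or.inl h3
      right
      have h5 : ((((d0 : ℤ) * (N0 * ⌈(N : ℚ) * (e * (1 - Δ P) - 1)⌉) : ℤ)) : ℝ) ≤
          Q.ord (W j G) := by
        exact_mod_cast h3
      refine le_trans ?_ h5
      have h6 : ((N : ℝ) * (e * (1 - Δ P) - 1)) ≤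
          ((⌈(N : ℚ) * (e * (1 - Δ P) - 1)⌉ : ℤ) : ℝ) := by
        have h7 := Int.le_ceil ((N : ℚ) * (e * (1 - Δ P) - 1))
        exact_mod_cast h7
      have h8 : (0 : ℝ) ≤ (d0 : ℝ) * N0 := by positivity
      have h9 := mul_le_mul_of_nonneg_left h6 h8
      push_cast at h9 ⊢
      nlinarith
  have hηK : algebraMap Z K (η 0 ε) ≠ 0 := (map_ne_zero _).2 hη0
  have hne : W 0 G0 ≠ 0 := by
    rw [hWG]
    exact pow_ne_zero _ (mul_ne_zero (pow_ne_zero _ hηK) (pow_ne_zero _ hφU))
  have hind0 : AlgebraicIndependent ℂ (fun i : Fin (n + k) => W i.succ G0 / W 0 G0) := by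
    -- the two families
    let u : Fin n → E := fun i => (⟨algebraMap Z K (η i.succ ε / η 0 ε), hZE _⟩ : E) ^ (N * d0)
    have hu : AlgebraicIndependent ℂ u := by
      refine ai_pow ?_ (Nat.mul_pos hN hd0).ne'
      refine AlgebraicIndependent.of_comp E.val ?_
      exact hai'.map' (f := IsScalarTower.toAlgHom ℂ Z K) (algebraMap Z K).injective
    have hv : AlgebraicIndependent E (fun i : Fin k => (φ i.succ U / φ 0 U) ^ (N0 * d0)) :=
      ai_pow hφi' (Nat.mul_pos hN0 hd0).ne'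
    have h1 := ai_join hu hv
    have h2 : (fun i : Fin (n + k) => W i.succ G0 / W 0 G0) =
        (fun i : Fin (n + k) => Fin.addCases (motive := fun _ => K) (fun i => (u i : K))
          (fun i : Fin k => (φ i.succ U / φ 0 U) ^ (N0 * d0)) i) := by
      funext i
      rw [hWG, hWG]
      refine Fin.addCases (fun i => ?_) (fun l => ?_) i
      · have e1 : (ia (n := n) (k := k) (Fin.castAdd k i).succ) = i.succ := by
          simp [ia]
        have e2 : (ib (n := n) (k := k) (Fin.castAdd k i).succ) = 0 := by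
          simp [ib]
        have e3 : (ia (n := n) (k := k) 0) = 0 := rfl
        have e4 : (ib (n := n) (k := k) 0) = 0 := rfl
        rw [e1, e2, e3, e4, Fin.addCases_left]
        change _ = (algebraMap Z K (η i.succ ε / η 0 ε)) ^ (N * d0)
        rw [map_div₀, div_pow, ← div_pow, mul_div_mul_right _ _ (pow_ne_zero _ hφU),
          ← div_pow, ← pow_mul, div_pow]
      · have e1 : (ia (n := n) (k := k) (Fin.natAdd n l).succ) = 0 := by
          simp [ia]
        have e2 : (ib (n := n) (k := k) (Fin.natAdd n l).succ) = l.succ := by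
          simp [ib]
        have e3 : (ia (n := n) (k := k) 0) = 0 := rfl
        have e4 : (ib (n := n) (k := k) 0) = 0 := rfl
        rw [e1, e2, e3, e4, Fin.addCases_right, ← div_pow,
          mul_div_mul_left _ _ (pow_ne_zero _ hηK), ← div_pow, ← pow_mul]
    rw [h2]
    exact h1
  obtain ⟨R, Ω, hR, h1, h2, E', hE', hind⟩ := descend1 (K := L) (L := K) hL
    (X := {P | IsPrimeDivisor y P}) (fun P hP => hP.divisorial hy hL) (Δ := Δ)
    (M := N0 * N * d0) (fun P hP => hden P hP (N0 * N)) (W := W) hWp hreg hne hind0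
  refine ⟨N0 * N * d0 * R, ?_, Ω, fun j => ⟨h1 j, fun P hP G hG => ?_⟩, E', hE', hind⟩
  · exact Nat.mul_pos (Nat.mul_pos (Nat.mul_pos hN0 hN) hd0) hR
  · rcases h2 P hP j G hG with h3 | h3
    · exact Or.inl h3
    · exact Or.inr (by simpa using h3)

end

end Pool.Agent.T2h13.LG
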