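import Pool.Agent.T2h13.AF.DefsC

/-!
Logarithmic forms on the generic fibre of a fibration of open varieties, in terms of function fields.

`K` is the function field of a variety `W`, and `E ⊆ K` the function field of the base of a
dominant rational map `W ⇢ V`. So `K` over `E` is the function field of the generic fibre, a variety
of dimension `r` over the field `E`, and `Derivation E K K` are its rational vector fields. The
boundary of the generic fibre is a set `B` of places of `K` over `E`, the prime divisors over the
generic fibre without centre on the open generic fibre.
-/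

set_option autoImplicit false

open FF
open Pool.Agent.W602.GT (Divisorial DerReg DerLog IsPluri)
open Pool.Agent.T2h13.AF (OnModel FibSec)

namespace Pool.Agent.T2h13.LG

section

variable {K : Type} [Field K] [Algebra ℂ K]

/-- `φ` is a logarithmic form of degree `q` on the open generic fibre: it is an alternating form on
the rational vector fields of the generic fibre, and at every divisorial place `w` of `K` which is
trivial on `E`, its values on logarithmic vector fields are regular, and its values on regular vector
fields too if `w` is not in the boundary `B`. These are the global sections of `Ω^q(log D)` of the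
smooth compactifications of the open generic fibre. -/
def LogForm (E : IntermediateField ℂ K) (r : ℕ) (B : Place E K → Prop) {q : ℕ}
    (φ : (Derivation E K K) [⋀^Fin q]→ₗ[K] K) : Prop :=
  ∀ w : Place E K, Divisorial r w → ∀ D : Fin q → Derivation E K K,
    ((∀ i, DerLog w (D i)) ∨ (¬ B w ∧ ∀ i, DerReg w (D i))) → w.Reg (φ D)

/-- The open generic fibre has few logarithmic forms: there is a basis `U` of the rational vector
fields on the generic fibre such that for all vector fields `U_(a 1), ..., U_(a q)` of this basis,
`q ≥ 1`, the values `φ(U_(a 1), ..., U_(a q))` of the logarithmic forms `φ` of degree `q` span a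
space of dimension at most `h` over `E`. -/
def FewLog (E : IntermediateField ℂ K) (r : ℕ) (B : Place E K → Prop) (h : ℕ) : Prop :=
  ∃ U : Fin r → Derivation E K K, LinearIndependent K U ∧
    ∀ (q : ℕ) (a : Fin q → Fin r), 0 < q →
      ∀ φ : Fin (h + 1) → (Derivation E K K) [⋀^Fin q]→ₗ[K] K, (∀ i, LogForm E r B (φ i)) →
        ¬ LinearIndependent E fun i => φ i fun p => U (a p)

/-- The open generic fibre is almost homogeneous: there is a projective model over `E` with the
generic point `z`, and `U` are vector fields which are regular on all affine charts of the model and
logarithmic at the prime divisors of the model which are in the boundary, and which are a basis of the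
vector fields at the generic point. -/
structure LogAlmostHom (E : IntermediateField ℂ K) {r N : ℕ} (B : Place E K → Prop)
    (z : Fin (N + 1) → K) (U : Fin r → Derivation E K K) : Prop where
  ne : ∀ i, z i ≠ 0
  top : IntermediateField.adjoin E (Set.range fun j => z j / z 0) = ⊤
  lin : LinearIndependent K U
  reg : ∀ a i j, U a (z j / z i) ∈ Algebra.adjoin E (Set.range fun j => z j / z i)
  log : ∀ w : Place E K, OnModel E r z w → B w → ∀ a, DerLog w (U a)

/-- `φ` is a global section of `N (K_G + ∂)` over the base, where `G` is the foliation on `W` by the
fibres of `W ⇢ V`, `∂` is the vertical part of the boundary `B` of `W` and `w = dim W`: it is an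
`N`-fold canonical form on the generic fibre, and at the prime divisors `Q` over `W` which do not
dominate `V`, its values on the vector fields along the fibres which are logarithmic at `Q` are
regular, and its values on the regular vector fields along the fibres too if `Q` is not in the
boundary. -/
def FolSec (E : IntermediateField ℂ K) (w r N : ℕ) (B : Place ℂ K → Prop)
    (φ : (Fin r → Derivation E K K) → K) : Prop :=
  IsPluri N φ ∧
  ∀ Q : Place ℂ K, Divisorial w Q → (∃ z ∈ E, Q.ord z ≠ 0) → ∀ U : Fin r → Derivation E K K,
    ((∀ a, ∀ f, Q.Reg (U a f / f)) ∨ (¬ B Q ∧ ∀ a, ∀ f, Q.Reg f → Q.Reg (U a f))) → Q.Reg (φ U)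

/-- `φ` is a section of `N (K_F + Γ)` on the generic fibre `F`: an `N`-fold canonical form of the
order at least `- N Γ v` along the prime divisors `v` over `F`. -/
def FibOrd (E : IntermediateField ℂ K) (r N : ℕ) (Γ : Place E K → ℚ)
    (φ : (Fin r → Derivation E K K) → K) : Prop :=
  IsPluri N φ ∧ ∀ v : Place E K, Divisorial r v → ∀ U : Fin r → Derivation E K K,
    (∀ a, DerReg v (U a)) → φ U = 0 ∨ -(N * Γ v) ≤ v.ord (φ U)

/-- `ν (K_F + Γ) ≤ k`: for every divisor `A` on `F`, the dimension of the space of the sections of
`m (K_F + Γ) + A` over the ground field `E` of `F` is bounded by a multiple of `m ^ k` for `m ≥ 1`. -/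
def NuLe (E : IntermediateField ℂ K) (r : ℕ) (Γ : Place E K → ℚ) (k : ℕ) : Prop :=
  ∀ S : Finset K, ∃ C : ℕ, ∀ (m l : ℕ) (ω : Fin l → (Fin r → Derivation E K K) → K), 1 ≤ m →
    (∀ i, FibSec E r Γ S m (ω i)) → LinearIndependent E ω → l ≤ C * m ^ k

end

end Pool.Agent.T2h13.LG
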