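import Pool.Agent.T2h13.AF.Ab6
import Pool.Agent.T2h13.LG.Defs

/-!
Sections on a variety which is dominated by a fibration: the upper bound.
-/

set_option autoImplicit false
set_option linter.overlappingInstances false
set_option linter.unusedSectionVars false
set_option maxHeartbeats 4000000
set_option synthInstance.maxHeartbeats 400000

open FF Pool.Agent.W603.LV Pool.Agent.W602.GT Pool.Agent.W619.PQ Pool.Agent.Y172 MvPolynomial
open Pool.Agent.R887 (pull pull_pluri pull_ord pull_ne disc_bound2 LogDisc Bnd exists_ordc)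
open Pool.Agent.N110 (Lsp IsDisc isSection_iff dom_sections affS fin_affS)
open Pool.Agent.Y173.QA (Adic adic_reg DegPl)
open Pool.Agent.T2h13.AF (FibSec HorLe rel_sec relW relW_indep trdeg_fib)

namespace Pool.Agent.T2h13.LG

section

variable {L : Type} [Field L] [Algebra ℂ L] {Z : Type} [Field Z] [Algebra ℂ Z]
  [Algebra.EssFiniteType ℂ Z] [Algebra Z L] [IsScalarTower ℂ Z L] {N' n r : ℕ}
  {y : Fin (N' + 1) → L}

/-- **The growth of the sections, from a bound for the generic fibre.** -/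
theorem upper (hy : NormalModel y) (hL : Algebra.trdeg ℂ L = (n + r : ℕ))
    (hZ : Algebra.trdeg ℂ Z = n) {Δ A : Place ℂ L → ℚ} (hΔ : Effective y Δ)
    (hA : Effective y A) {x0 : Fin (n + r) → L} {E0 : Fin (n + r) → Derivation ℂ L L}
    (hx0 : IsTranscendenceBasis ℂ x0) (hE0 : ∀ i j, E0 i (x0 j) = if i = j then 1 else 0)
    {M0 k0 : ℕ} (hM : ∀ m : ℕ, 1 ≤ m → ∀ (k : ℕ) (f : Fin k → L),
      (∀ i, ∃ ω, IsSection y (n + r) m (m • Δ + A) ω ∧ ω E0 = f i) →
      Module.finrank Z (Submodule.span Z (Set.range f)) ≤ M0 * m ^ k0) :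
    ∃ C : ℕ, ∀ m : ℕ, 1 ≤ m → ∀ (k : ℕ) (f : Fin k → L), LinearIndependent ℂ f →
      (∀ i, ∃ ω, IsSection y (n + r) m (m • Δ + A) ω ∧ ω E0 = f i) →
        k ≤ C * m ^ (n + k0) := by
  classical
  have hZ0 : CharZero Z := charZero_of_injective_algebraMap (algebraMap ℂ Z).injective
  have hess := hy.ess
  obtain ⟨i, hi⟩ := hy.ne
  obtain ⟨c, hcfin, hc⟩ := exists_ordc hy hL hx0 hE0
  have hc' : IsDisc y E0 c := hc
  obtain ⟨β, f0, hf0, h1⟩ := dom_sections hy hi hcfin hΔ.2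
  obtain ⟨βA, g0, hg0, h2⟩ := h1 A hA
  obtain ⟨t, -, ht, -⟩ := exists_crd hZ
  obtain ⟨x, -, hx, -⟩ := exists_crd (Pool.Agent.Y174.trdeg_LK (L := Z) hZ hL)
  have hzb := Pool.Agent.Y174.basis_append ht hx
  have hfd := fd_basis hzb
  have hfdZ := fd_basis ht
  obtain ⟨T, hTf, -, C, c1, hcount⟩ := Pool.Agent.Y174.count_rel ht hx hfd hfdZ ({1} : Finset L)
  obtain ⟨z, hz⟩ : ∃ z : Fin (n + r) → L, z = Fin.append (algebraMap Z L ∘ t) x := ⟨_, rfl⟩
  rw [← hz] at hcount hzb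
  -- the common denominator
  choose q hq0 hqi using fun s : L => Pool.Agent.TH122.AB.exists_mult hzb s
  obtain ⟨Q, hQ⟩ : ∃ Q, Q = ∏ l, q (y l / y i) := ⟨_, rfl⟩
  have hQ0 : Q ≠ 0 := by
    rw [hQ]
    exact Finset.prod_ne_zero_iff.2 fun s _ => hq0 _
  have hQz : aeval z Q ≠ 0 := fun h0 =>
    hQ0 ((injective_iff_map_eq_zero _).1 hzb.1 _ h0)
  have hQS : ∀ l, ∀ P : Place ℂ L, (∀ f : MvPolynomial (Fin (n + r)) ℂ, P.Reg (aeval z f)) →
      P.Reg (aeval z Q * (y l / y i)) := by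
    intro l P hP
    rw [hQ, ← Finset.mul_prod_erase Finset.univ _ (Finset.mem_univ l), map_mul,
      mul_comm (aeval _ (q (y l / y i))), mul_assoc]
    exact P.reg_mul (hP _) (Pool.Agent.TH122.AB.reg_of_int hP (hqi _))
  -- the bound at the places at infinity
  obtain ⟨C3, hC3⟩ : ∃ C3 : ℕ, ∀ b, ∀ P ∈ T b, ∀ l,
      -(C3 : ℤ) ≤ P.ord (aeval z Q) + P.ord (y l / y i) := by
    have hfin2 : (⋃ b, T b).Finite := Set.finite_iUnion hTf
    have := hfin2.fintype
    refine ⟨∑ P : (⋃ b, T b), ∑ l, (P.1.ord (aeval z Q) + P.1.ord (y l / y i)).natAbs,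
      fun b P hP l => ?_⟩
    have hPm : P ∈ ⋃ b, T b := Set.mem_iUnion.2 ⟨b, hP⟩
    have h3 : (P.ord (aeval z Q) + P.ord (y l / y i)).natAbs ≤
        ∑ l, (P.ord (aeval z Q) + P.ord (y l / y i)).natAbs :=
      Finset.single_le_sum (f := fun l => (P.ord (aeval z Q) + P.ord (y l / y i)).natAbs)
        (fun _ _ => Nat.zero_le _) (Finset.mem_univ l)
    have h4 : ∑ l, (P.ord (aeval z Q) + P.ord (y l / y i)).natAbs ≤
        ∑ P : (⋃ b, T b), ∑ l, (P.1.ord (aeval z Q) + P.1.ord (y l / y i)).natAbs :=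
      Finset.single_le_sum (f := fun P : (⋃ b, T b) =>
        ∑ l, (P.1.ord (aeval z Q) + P.1.ord (y l / y i)).natAbs)
        (fun _ _ => Nat.zero_le _) (Finset.mem_univ ⟨P, hPm⟩)
    omega
  refine ⟨C * M0 * ((β + βA) * C3 + c1) ^ n, fun m hm k f hf hsec => ?_⟩
  obtain ⟨M, hMdef⟩ : ∃ M : ℕ, M = M0 * m ^ k0 := ⟨_, rfl⟩
  obtain ⟨B, hB⟩ : ∃ B : ℕ, B = m * β + βA := ⟨_, rfl⟩
  obtain ⟨h, hh⟩ : ∃ h : L, h = (aeval z Q) ^ B * (f0 ^ m * g0) := ⟨_, rfl⟩
  have hh0 : h ≠ 0 := by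
    rw [hh]
    exact mul_ne_zero (pow_ne_zero _ hQz) (mul_ne_zero (pow_ne_zero _ hf0) hg0)
  have hlin : LinearIndependent ℂ fun l => h * f l := by
    have h3 := hf.map' (LinearMap.mulLeft ℂ h) (by
      rw [LinearMap.ker_eq_bot]
      exact fun a b hab => mul_left_cancel₀ hh0 hab)
    exact h3
  have hrk : Module.finrank Z (Submodule.span Z (Set.range fun l => h * f l)) ≤ M := by
    have h2 : Submodule.span Z (Set.range fun l => h * f l) =
        (Submodule.span Z (Set.range f)).map (LinearMap.mulLeft Z h) := by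
      rw [Submodule.map_span, ← Set.range_comp]
      rfl
    rw [h2]
    have h3 : FiniteDimensional Z (Submodule.span Z (Set.range f)) :=
      FiniteDimensional.span_of_finite Z (Set.finite_range _)
    rw [hMdef]
    exact (Submodule.finrank_map_le _ _).trans (hM m hm k f hsec)
  -- the orders
  have hord : ∀ l, f l ≠ 0 → ∀ P : Place ℂ L, ∃ p, y p / y i ≠ 0 ∧
      (B : ℤ) * (P.ord (aeval z Q) + P.ord (y p / y i)) ≤ P.ord (h * f l) := by
    intro l hl P
    obtain ⟨ω, hω, hωf⟩ := hsec l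
    have h3 : f l ∈ Lsp y c m (m • Δ + 1 • A) := by
      rw [← hωf, one_smul]
      exact (isSection_iff hc' hω.1).1 hω
    obtain ⟨s, ⟨p, rfl⟩, hs0, h4⟩ := h2 m 1 _ h3 P
    refine ⟨p, hs0, ?_⟩
    have e1 : h * f l = (aeval z Q) ^ B * (f0 ^ m * g0 ^ 1 * f l) := by
      rw [hh]
      ring
    rw [e1, P.ord_mul (pow_ne_zero _ hQz) (mul_ne_zero (mul_ne_zero (pow_ne_zero _ hf0)
      (pow_ne_zero _ hg0)) hl), P.ord_pow, mul_add]
    have h5 : ((m * β + 1 * βA : ℕ) : ℤ) = B := by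
      rw [hB, one_mul]
    rw [h5] at h4
    linarith
  have h3 := hcount (fun _ => B * C3) k M _ hlin hrk (fun l p hp P hP => ?_) fun l b P hP => ?_
  · refine h3.trans ?_
    rw [Finset.prod_const, Finset.card_univ, Fintype.card_fin]
    have h4 : B * C3 + c1 ≤ ((β + βA) * C3 + c1) * m := by
      have h5 : B ≤ (β + βA) * m := by
        rw [hB, Nat.add_mul, Nat.mul_comm m β]
        exact Nat.add_le_add_left (Nat.le_mul_of_pos_right _ hm) _
      have h6 := Nat.mul_le_mul_right C3 h5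
      have h7 := Nat.le_mul_of_pos_right c1 hm
      calc B * C3 + c1 ≤ (β + βA) * m * C3 + c1 * m := Nat.add_le_add h6 h7
        _ = ((β + βA) * C3 + c1) * m := by ring
    calc C * M * (B * C3 + c1) ^ n ≤ C * M * (((β + βA) * C3 + c1) * m) ^ n :=
          Nat.mul_le_mul_left _ (Nat.pow_le_pow_left h4 n)
      _ = C * M0 * ((β + βA) * C3 + c1) ^ n * m ^ (n + k0) := by
          rw [Nat.mul_pow, hMdef, pow_add]
          ring
  · by_cases hl : f l = 0
    · left
      rw [hl, mul_zero]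
    right
    refine ⟨1, Finset.mem_singleton_self _, one_ne_zero, ?_⟩
    obtain ⟨p', hp0, h4⟩ := hord l hl P
    have h5 := (hQS p' P (adic_reg hP)).resolve_left (mul_ne_zero hQz hp0)
    rw [P.ord_mul hQz hp0] at h5
    rw [P.ord_one, mul_zero]
    exact (mul_nonneg (Int.natCast_nonneg _) h5).trans h4
  · by_cases hl : f l = 0
    · left
      rw [hl, mul_zero]
    right
    obtain ⟨p', hp0, h4⟩ := hord l hl P
    have h5 := hC3 b P hP p'
    have h6 := mul_le_mul_of_nonneg_left h5 (Int.natCast_nonneg B)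
    refine le_trans ?_ h4
    push_cast
    linarith

end

section

variable {K : Type} [Field K] [Algebra ℂ K] [Algebra.EssFiniteType ℂ K] {n r : ℕ}
  {L : Type} [Field L] [Algebra ℂ L] [Algebra.EssFiniteType ℂ L] [Algebra L K]
  [IsScalarTower ℂ L K] [FiniteDimensional L K] {N' : ℕ} {y : Fin (N' + 1) → L}

/-- **The number of the sections which are linearly independent over the base.** -/
theorem few_indep (hr : 1 ≤ r) (hK : Algebra.trdeg ℂ K = (n + r : ℕ)) {E : IntermediateField ℂ K}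
    (hE : Algebra.trdeg ℂ E = n) {Γ : Place E K → ℚ} {k0 : ℕ} (hν : NuLe E r Γ k0) (hy : NormalModel y)
    {Δ A : Place ℂ L → ℚ} (hA : Effective y A) (hH : HorLe E r (n + r) Γ y Δ)
    {x0 : Fin (n + r) → L} {E0 : Fin (n + r) → Derivation ℂ L L} (hx0 : IsTranscendenceBasis ℂ x0)
    (hE0 : ∀ i j, E0 i (x0 j) = if i = j then 1 else 0) :
    ∃ C : ℕ, ∀ m : ℕ, 1 ≤ m → ∀ (k : ℕ) (f : Fin k → L),
      (∀ i, ∃ ω, IsSection y (n + r) m (m • Δ + A) ω ∧ ω E0 = f i) →
      LinearIndependent E (fun i => algebraMap L K (f i)) → k ≤ C * m ^ k0 := by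
  have hE' : CharZero E := charZero_of_injective_algebraMap (algebraMap ℂ E).injective
  obtain ⟨t, -, ht, -⟩ := exists_crd hE
  obtain ⟨x, U, hx, hU⟩ := exists_crd (trdeg_fib hK hE)
  have hzb : IsTranscendenceBasis ℂ (Fin.append (fun j => (t j : K)) x : Fin (n + r) → K) :=
    Pool.Agent.Y174.basis_append ht hx
  choose G0 hG0 using fun i : Fin (n + r) =>
    exists_der _ hzb fun j => if i = j then 1 else 0
  obtain ⟨S, hS⟩ := rel_sec hr hK ht hzb hG0 hy hA hH hx0 hE0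
  obtain ⟨C, hC⟩ := hν S
  refine ⟨C, fun m hm k f hf hind => ?_⟩
  choose ω hω hωf using hf
  obtain ⟨J, hJ⟩ : ∃ J : K, J = (Matrix.of fun i j => G0 i (algebraMap L K (x0 j))).det ^ m :=
    ⟨_, rfl⟩
  have hfr : IsFrame G0 := fun D => ⟨_, (Pool.Agent.W73.PG.PULL.expand _ hzb G0 hG0 D).symm⟩
  have hL : Algebra.trdeg ℂ L = (n + r : ℕ) := Pool.Agent.Y184.NT.trdeg_below (K := K) hK
  have hJ0 : J ≠ 0 := by
    rw [hJ]
    exact pow_ne_zero _ (pull_ne hL hE0 hfr)
  have hval : ∀ i, pull K x0 E0 m (ω i) G0 = J * algebraMap L K (f i) := by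
    intro i
    rw [hJ, ← hωf i]
    rfl
  have hind' : LinearIndependent E fun i => pull K x0 E0 m (ω i) G0 := by
    have h1 := hind.map' (LinearMap.mulLeft E J) (by
      rw [LinearMap.ker_eq_bot]
      exact fun a b hab => mul_left_cancel₀ hJ0 hab)
    have h2 : (fun i => pull K x0 E0 m (ω i) G0) =
        (LinearMap.mulLeft E J) ∘ fun i => algebraMap L K (f i) := by
      funext i
      exact hval i
    rw [h2]
    exact h1
  exact hC m k _ hm (fun l => hS m hm (ω l) (hω l)) (relW_indep hU m hind')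

variable {Z : Type} [Field Z] [Algebra ℂ Z] [Algebra.EssFiniteType ℂ Z] [Algebra Z L]
  [Algebra Z K] [IsScalarTower ℂ Z L] [IsScalarTower ℂ Z K] [IsScalarTower Z L K]

/-- **The growth of the sections.** -/
theorem upper_fib (hr : 1 ≤ r) (hK : Algebra.trdeg ℂ K = (n + r : ℕ)) (hZ : Algebra.trdeg ℂ Z = n)
    {E : IntermediateField ℂ K} (hE : Algebra.trdeg ℂ E = n)
    (hZE : ∀ z : Z, algebraMap Z K z ∈ E) (hEZ : ∀ e ∈ E, IsAlgebraic Z e)
    (hcl : ∀ z : L, IsAlgebraic Z z → ∃ w : Z, algebraMap Z L w = z)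
    {Γ : Place E K → ℚ} {k0 : ℕ} (hν : NuLe E r Γ k0) (hy : NormalModel y)
    {Δ A : Place ℂ L → ℚ} (hΔ : Effective y Δ) (hA : Effective y A)
    (hH : HorLe E r (n + r) Γ y Δ) {x0 : Fin (n + r) → L}
    {E0 : Fin (n + r) → Derivation ℂ L L} (hx0 : IsTranscendenceBasis ℂ x0)
    (hE0 : ∀ i j, E0 i (x0 j) = if i = j then 1 else 0) :
    ∃ C : ℕ, ∀ m : ℕ, 1 ≤ m → ∀ (k : ℕ) (f : Fin k → L), LinearIndependent ℂ f →
      (∀ i, ∃ ω, IsSection y (n + r) m (m • Δ + A) ω ∧ ω E0 = f i) → k ≤ C * m ^ (n + k0) := by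
  have hZ0 : CharZero Z := charZero_of_injective_algebraMap (algebraMap ℂ Z).injective
  have hL : Algebra.trdeg ℂ L = (n + r : ℕ) := Pool.Agent.Y184.NT.trdeg_below (K := K) hK
  obtain ⟨C, hC⟩ := few_indep hr hK hE hν hy (Δ := Δ) hA hH hx0 hE0
  let i1 : Algebra Z E := RingHom.toAlgebra
    { toFun := fun z => ⟨algebraMap Z K z, hZE z⟩
      map_one' := Subtype.ext (map_one _)
      map_mul' := fun _ _ => Subtype.ext (map_mul _ _ _)
      map_zero' := Subtype.ext (map_zero _)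
      map_add' := fun _ _ => Subtype.ext (map_add _ _ _) }
  have h1 : IsScalarTower Z E K := IsScalarTower.of_algebraMap_eq fun _ => rfl
  have h0 : IsScalarTower ℂ Z E := IsScalarTower.of_algebraMap_eq fun c =>
    Subtype.ext (IsScalarTower.algebraMap_apply ℂ Z K c)
  have h2 : Algebra.IsAlgebraic Z E := by
    constructor
    intro f
    have h3 := hEZ f f.2
    exact (isAlgebraic_algebraMap_iff (algebraMap E K).injective).1 h3
  refine upper hy hL hZ hΔ hA hx0 hE0 (M0 := C) (k0 := k0) fun m hm k f hf => ?_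
  have h5 : FiniteDimensional Z (Submodule.span Z (Set.range f)) :=
    FiniteDimensional.span_of_finite Z (Set.finite_range _)
  obtain ⟨g, hg, -, hglin⟩ := Submodule.exists_fun_fin_finrank_span_eq Z (Set.range f)
  have h4 := Pool.Agent.Y174.lin_disj (L := Z) (K := L) (Λ := E) (F := K)
    (fun z hz => hcl z hz.isAlgebraic) hglin
  refine hC m hm _ g (fun i => ?_) h4
  obtain ⟨j, hj⟩ := hg i
  obtain ⟨ω, hω, hωf⟩ := hf j
  exact ⟨ω, hω, by rw [hωf, hj]⟩

end

end Pool.Agent.T2h13.LG
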