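import Pool.Agent.T2h13.LG.Ab1

/-!
The products of the logarithmic forms on the base and of the forms along the fibres.
-/

set_option autoImplicit false
set_option linter.overlappingInstances false
set_option linter.unusedSectionVars false
set_option maxHeartbeats 4000000
set_option synthInstance.maxHeartbeats 400000

open FF Pool.Agent.W603.LV Pool.Agent.W602.GT Pool.Agent.W619.PQ Pool.Agent.Y172
open Pool.Agent.T2h13.AF (rho rho_apply prodForm prodForm_pluri prod_adapted prod_hor)

namespace Pool.Agent.T2h13.LG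

section

variable {K : Type} [Field K] [Algebra ℂ K]

theorem log_sum {Q : Place ℂ K} {m : ℕ} {G : Fin m → Derivation ℂ K K} (hG : ∀ l, DerLog Q (G l))
    {c : Fin m → K} (hc : ∀ l, Q.Reg (c l)) {D : Derivation ℂ K K} (hD : D = ∑ l, c l • G l) :
    DerLog Q D := by
  intro f
  rw [hD, sum_smul_apply, Finset.sum_div]
  have h1 : ∀ s : Finset (Fin m), Q.Reg (∑ l ∈ s, c l * G l f / f) := by
    intro s
    induction s using Finset.induction_on with
    | empty =>
      rw [Finset.sum_empty]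
      exact Q.reg_zero
    | insert b s hb ih =>
      rw [Finset.sum_insert hb, mul_div_assoc]
      exact Q.reg_add (Q.reg_mul (hc b) (hG b f)) ih
  exact h1 _

variable {n r : ℕ} {Z : Type} [Field Z] [Algebra ℂ Z] [Algebra Z K] [IsScalarTower ℂ Z K]

/-- the value of the product on regular vector fields, in terms of adapted logarithmic frames -/
theorem prod_adapted_log [Algebra.EssFiniteType ℂ K] (hK : Algebra.trdeg ℂ K = (n + r : ℕ))
    {E : IntermediateField ℂ K} (hZE : ∀ z : Z, algebraMap Z K z ∈ E) (t : Fin n → Z)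
    (ε : Fin n → Derivation ℂ Z Z) {x : Fin r → K} (hx : IsTranscendenceBasis E x)
    {U : Fin r → Derivation E K K} (hU : ∀ a l, U a (x l) = if a = l then 1 else 0) (N0 N : ℕ)
    (η : (Fin n → Derivation ℂ Z Z) → Z) {φ : (Fin r → Derivation E K K) → K}
    (hφ : IsPluri N φ) {Q : Place ℂ K} (hQ : Divisorial (n + r) Q) :
    ∃ (F : Fin n → Derivation ℂ K K) (U' : Fin r → Derivation E K K), (∀ i, DerLog Q (F i)) ∧
      (∀ a, DerLog Q (rho E (U' a))) ∧ ∀ D : Fin (n + r) → Derivation ℂ K K,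
        (∀ i, DerReg Q (D i)) → ∃ c, Ge Q (-(N0 * N : ℕ)) c ∧ prodForm t ε x U N0 N η φ D =
          c * (((Matrix.of fun i j => F i (algebraMap Z K (t j))).det ^ N0 *
            algebraMap Z K (η ε)) ^ N * φ U' ^ N0) := by
  have hE0 : CharZero E := charZero_of_injective_algebraMap (algebraMap ℂ E).injective
  obtain ⟨y, G0, i0, hl⟩ := exists_loc hK hQ
  obtain ⟨G, hG⟩ : ∃ G : Fin (n + r) → Derivation ℂ K K, ∀ j, G j = lc y i0 j • G0 j :=
    ⟨_, fun _ => rfl⟩
  have hlc0 : ∀ i, lc y i0 i ≠ 0 := by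
    intro i
    unfold lc
    split_ifs
    · exact hl.ne
    · exact one_ne_zero
  have hGlog : ∀ j, DerLog Q (G j) := fun j => by
    rw [hG]
    exact hl.log j
  have hexp : ∀ D : Derivation ℂ K K, D = ∑ j, (D (y j) / lc y i0 j) • G j := by
    intro D
    conv_lhs => rw [← Pool.Agent.W73.PG.PULL.expand y hl.bas G0 hl.dual D]
    refine Finset.sum_congr rfl fun j _ => ?_
    rw [hG, smul_smul, div_mul_cancel₀ _ (hlc0 j)]
  obtain ⟨m, s, F, U', hm, hs, hF, hU', hdU, hdG⟩ := exists_adapted Q (G := G)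
    (fun j => (⟨algebraMap Z K (t j), hZE _⟩ : E)) hU fun b => ⟨_, hexp _⟩
  refine ⟨F, U', fun i => ?_, fun a => ?_, fun D hD => ?_⟩
  · obtain ⟨l, hl'⟩ := hF i
    rw [hl']
    exact hGlog l
  · obtain ⟨c, hc, hc'⟩ := hU' a
    exact log_sum hGlog hc hc'
  obtain ⟨z, hz⟩ : ∃ z : Fin (n + r) → K, z = Fin.append (fun j => algebraMap Z K (t j)) x :=
    ⟨_, rfl⟩
  have h1 : (Matrix.of fun i j => D i (z j)).det =
      (Matrix.of fun i j => D i (y j) / lc y i0 j).det * (Matrix.of fun i j => G i (z j)).det := by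
    rw [← Matrix.det_mul]
    congr 1
    ext i j
    rw [Matrix.of_apply, Matrix.mul_apply]
    conv_lhs => rw [hexp (D i)]
    rw [sum_smul_apply]
    rfl
  have h2 : φ U = m ^ N * φ U' := by
    have h3 := pluri_coord hx hU hφ U'
    rw [h3, ← mul_assoc, ← mul_pow, mul_comm m, hdU, one_pow, one_mul]
  have hs1 : Q.Reg s := by
    rcases hs with h | h
    · rw [h]
      exact Q.reg_one
    · rw [h]
      exact Q.reg_neg Q.reg_one
  -- the determinant of the regular vector fields with respect to the logarithmic frame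
  have hdet : (Matrix.of fun i j => D i (y j) / lc y i0 j).det =
      (Matrix.of fun i j => D i (y j)).det * (y i0)⁻¹ := by
    have h3 : (Matrix.of fun i j => D i (y j) / lc y i0 j : Matrix (Fin (n + r)) (Fin (n + r)) K) =
        Matrix.of fun i j => (lc y i0 j)⁻¹ * (Matrix.of fun i j => D i (y j)) i j := by
      ext i j
      rw [Matrix.of_apply, Matrix.of_apply, Matrix.of_apply, div_eq_mul_inv, mul_comm]
    rw [h3, Matrix.det_mul_row, Finset.prod_inv_distrib, prod_lc, mul_comm]
  have hge : Ge Q (-1) (Matrix.of fun i j => D i (y j) / lc y i0 j).det := by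
    rw [hdet]
    have h9 : Ge Q 0 (Matrix.of fun i j => D i (y j)).det :=
      ge_det Q _ fun a b => hD a _ (hl.reg b)
    have h10 : Ge Q (-1) (y i0)⁻¹ := Or.inr (by rw [Q.ord_inv, hl.unif])
    have h11 := h9.mul h10
    rwa [zero_add] at h11
  refine ⟨(Matrix.of fun i j => D i (y j) / lc y i0 j).det ^ (N0 * N) * s ^ (N0 * N), ?_, ?_⟩
  · have h10 := hge.pow (N0 * N)
    have h11 := Ge.pow (P := Q) (N := 0) (show Ge Q 0 s from hs1) (N0 * N)
    rw [mul_zero] at h11
    have h12 := h10.mul h11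
    refine h12.mono (le_of_eq ?_)
    ring
  · change (Matrix.of fun i j => G i ((Fin.append (fun j => algebraMap Z K (t j)) x :
        Fin (n + r) → K) j)).det * m = _ at hdG
    rw [← hz] at hdG
    unfold prodForm
    rw [← hz, h1, h2, mul_pow, mul_pow, ← pow_mul, mul_comm N N0, mul_pow _ (algebraMap Z K (η ε)),
      ← pow_mul]
    have h3 : (Matrix.of fun i j => G i (z j)).det ^ (N0 * N) * m ^ (N0 * N) =
        s ^ (N0 * N) * (Matrix.of fun i j => F i (algebraMap Z K (t j))).det ^ (N0 * N) := by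
      rw [← mul_pow, ← mul_pow, hdG]
    linear_combination (Matrix.of fun i j => D i (y j) / lc y i0 j).det ^ (N0 * N) *
      algebraMap Z K (η ε) ^ N * φ U' ^ N0 * h3

/-- **The order of the products at the divisors which do not dominate the base.** -/
theorem prod_vert [Algebra.EssFiniteType ℂ K] [Algebra.EssFiniteType ℂ Z]
    (hK : Algebra.trdeg ℂ K = (n + r : ℕ)) (hZ : Algebra.trdeg ℂ Z = n)
    {E : IntermediateField ℂ K} (hZE : ∀ z : Z, algebraMap Z K z ∈ E) {t : Fin n → Z}
    (ht : IsTranscendenceBasis ℂ t) {ε : Fin n → Derivation ℂ Z Z}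
    (hε : ∀ i j, ε i (t j) = if i = j then 1 else 0) {x : Fin r → K}
    (hx : IsTranscendenceBasis E x) {U : Fin r → Derivation E K K}
    (hU : ∀ a l, U a (x l) = if a = l then 1 else 0) {N0 N : ℕ}
    {BR : Place ℂ Z → Prop} {η : (Fin n → Derivation ℂ Z Z) → Z} (hη : LogSec ℂ Z n N0 BR η)
    {φ : (Fin r → Derivation E K K) → K}
    {B : Place ℂ K → Prop} (hφp : IsPluri N φ)
    (hφv : ∀ Q : Place ℂ K, Divisorial (n + r) Q → (∃ z ∈ E, Q.ord z ≠ 0) →
      ∀ U : Fin r → Derivation E K K, ((∀ a, ∀ f, Q.Reg (U a f / f)) ∨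
        (¬ B Q ∧ ∀ a, ∀ f, Q.Reg f → Q.Reg (U a f))) → Q.Reg (φ U)) {Q : Place ℂ K}
    (hQ : Divisorial (n + r) Q) {R : Place ℂ Z} {e : ℕ} (h : Over Q R e)
    {D : Fin (n + r) → Derivation ℂ K K} (hD : ∀ i, DerReg Q (D i)) :
    (¬ BR R → ¬ B Q → Ge Q ((N0 * N : ℕ) * ((e : ℤ) - 1)) (prodForm t ε x U N0 N η φ D)) ∧
      Ge Q (-(N0 * N : ℕ)) (prodForm t ε x U N0 N η φ D) := by
  have hR : Divisorial n R := Pool.Agent.Y71.NT.t_abh Z K n (n + r) hZ hK Q R e h hQ
  have hvert : ∃ z ∈ E, Q.ord z ≠ 0 := by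
    obtain ⟨f, -, hf⟩ := R.surj
    refine ⟨algebraMap Z K f, hZE f, ?_⟩
    rw [h.2, hf, mul_one]
    have := h.1
    omega
  obtain ⟨yR, ER, i0, hl⟩ := exists_loc hZ hR
  have hy0 : algebraMap Z K (yR i0) ≠ 0 := (map_ne_zero _).2 hl.ne
  have hord : Q.ord (algebraMap Z K (yR i0)) = e := by
    rw [h.2, hl.unif, mul_one]
  constructor
  · intro hBR hBQ
    obtain ⟨F, U', hF, hU', hall⟩ := prod_adapted hK hZE t ε hx hU N0 N η hφp hQ
    obtain ⟨c, hc, hcD⟩ := hall D hD
    rw [hcD]
    have h1 := Pool.Agent.W73.PG.PULL.form_eq (L := K) t yR ht hl.bas ε ER hε hl.dual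
      (m := N0) η hη.1 F
    rw [h1]
    have h2 := Pool.Agent.Y174.det_ge F hF (fun j => algebraMap Z K (yR j)) i0 hord hy0
      fun j => h.reg.2 (hl.reg j)
    have h3 : Ge Q 0 (algebraMap Z K (η ER)) := h.reg.2 (hη.2.2 R hR hBR ER hl.pres)
    have h4 : Ge Q 0 (φ U') := hφv Q hQ hvert U' (Or.inr ⟨hBQ, hU'⟩)
    have h5 := (show Ge Q 0 c from hc).mul ((((h2.pow N0).mul h3).pow N).mul (h4.pow N0))
    refine h5.mono (le_of_eq ?_)
    push_cast
    ring
  · obtain ⟨F, U', hF, hU', hall⟩ := prod_adapted_log hK hZE t ε hx hU N0 N η hφp hQ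
    obtain ⟨c, hc, hcD⟩ := hall D hD
    rw [hcD]
    have h1 := Pool.Agent.W73.PG.PULL.form_eq (L := K) t yR ht hl.bas ε ER hε hl.dual
      (m := N0) η hη.1 F
    have hlc0 : ∀ i, lc yR i0 i ≠ 0 := by
      intro i
      unfold lc
      split_ifs
      · exact hl.ne
      · exact one_ne_zero
    -- the value in terms of the logarithmic frame
    have h2 : (Matrix.of fun i j => F i (algebraMap Z K (yR j)) :
        Matrix (Fin n) (Fin n) K).det ^ N0 * algebraMap Z K (η ER) =
        (Matrix.of fun i j => F i (algebraMap Z K (yR j)) / algebraMap Z K (lc yR i0 j) :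
          Matrix (Fin n) (Fin n) K).det ^ N0 *
          algebraMap Z K (η fun j => lc yR i0 j • ER j) := by
      have h3 : (Matrix.of fun i j => F i (algebraMap Z K (yR j)) / algebraMap Z K (lc yR i0 j) :
          Matrix (Fin n) (Fin n) K) = Matrix.of fun i j => (algebraMap Z K (lc yR i0 j))⁻¹ *
            (Matrix.of fun i j => F i (algebraMap Z K (yR j))) i j := by
        ext i j
        rw [Matrix.of_apply, Matrix.of_apply, Matrix.of_apply, div_eq_mul_inv, mul_comm]
      rw [h3, Matrix.det_mul_row, Finset.prod_inv_distrib, ← map_prod, prod_lc,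
        pluri_diag hη.1, prod_lc, map_mul, map_pow, mul_pow]
      have h4 : (algebraMap Z K (yR i0))⁻¹ ^ N0 * algebraMap Z K (yR i0) ^ N0 = 1 := by
        rw [← mul_pow, inv_mul_cancel₀ hy0, one_pow]
      linear_combination (-(Matrix.of fun i j => F i (algebraMap Z K (yR j)) :
        Matrix (Fin n) (Fin n) K).det ^ N0 * algebraMap Z K (η ER)) * h4
    rw [h1, h2]
    have h3 : Ge Q 0 (Matrix.of fun i j => F i (algebraMap Z K (yR j)) /
        algebraMap Z K (lc yR i0 j) : Matrix (Fin n) (Fin n) K).det := by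
      refine ge_det Q _ fun a b => ?_
      by_cases hb : b = i0
      · have e1 : lc yR i0 b = yR b := by
          unfold lc
          rw [if_pos hb, hb]
        rw [Matrix.of_apply, e1]
        exact hF a _
      · have e1 : lc yR i0 b = 1 := by
          unfold lc
          rw [if_neg hb]
        rw [Matrix.of_apply, e1, map_one, div_one]
        exact DerLog.ge (hF a) (h.reg.2 (hl.reg b))
    have h4 : Ge Q 0 (algebraMap Z K (η fun j => lc yR i0 j • ER j)) :=
      h.reg.2 (hη.2.1 R hR _ fun j => hl.log j)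
    have h5 : Ge Q 0 (φ U') := hφv Q hQ hvert U' (Or.inl fun a f => hU' a f)
    have h6 := hc.mul ((((h3.pow N0).mul h4).pow N).mul (h5.pow N0))
    refine h6.mono (le_of_eq ?_)
    push_cast
    ring

end

end Pool.Agent.T2h13.LG
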