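import Pool.Agent.T2h13.LG.TM
import Pool.Agent.T2h13.LG.Defs
import Pool.Agent.T2h13.AF.Few
import Pool.Agent.Y172.Cov4

/-!
Fibrations whose generic fibre has few logarithmic forms: the conjugates of the base are the base.
-/

set_option autoImplicit false
set_option linter.overlappingInstances false
set_option linter.unusedSectionVars false
set_option maxHeartbeats 4000000
set_option synthInstance.maxHeartbeats 400000

open FF Pool.Agent.W603.LV Pool.Agent.Y184.NT Pool.Agent.N162.BC IntermediateField MvPolynomial
open Pool.Agent.W602.GT Pool.Agent.W619.PQ Pool.Agent.Y172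
open Pool.Agent.N145.SX (HX SepX)
open Module (finrank)
open Pool.Agent.T2h13.AF (rho rho_apply rho_zero rho_inj algE exists_span res res_reg exists_compl
  det_of_lin span_rows exists_max2 span_of_det det_two part gen_sep2 der_alg' der_emb const_alg
  der_sum_app exists_ext cnt)

namespace Pool.Agent.T2h13.LG

section

variable {K : Type} [Field K] [Algebra ℂ K] [Algebra.EssFiniteType ℂ K] {n r : ℕ}
  {L : Type} [Field L] [Algebra ℂ L] [Algebra L K] [IsScalarTower ℂ L K] [FiniteDimensional L K]

/-- The boundary `BE` of the base lies over the boundary `BL` of the image. -/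
def ImgBd (E : IntermediateField ℂ K) (BE : Place ℂ E → Prop) (BL : Place ℂ L → Prop) : Prop :=
  ∀ (Q : Place ℂ K) (R : Place ℂ E) (e : ℕ), BE R → Over Q R e → BL (bel L Q)

/-- **The conjugates of the base vanish along the fibres.** -/
theorem sep2 (hK : Algebra.trdeg ℂ K = (n + r : ℕ)) {E : IntermediateField ℂ K}
    [Algebra.EssFiniteType ℂ E] (hE : Algebra.trdeg ℂ E = n) {x : Fin n → E}
    (hx : IsTranscendenceBasis ℂ x) {BE : Place ℂ E → Prop} {BL : Place ℂ L → Prop}
    (hB : ImgBd E BE BL) {g h : ℕ} (hS : SepX x BE g)
    (hg : (h + 1) * finrank L (IntermediateField.adjoin L (E : Set K)) < g)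
    (hfew : FewLog E r (fun w => BL (bel L (res w))) h)
    (σ : IntermediateField.adjoin L (E : Set K) →ₐ[L] AlgebraicClosure K) (e : K) (he : e ∈ E) :
    IsAlgebraic (IntermediateField.adjoin ℂ (Set.range fun j => (x j : K)))
      (σ ⟨e, IntermediateField.subset_adjoin L _ he⟩) := by
  classical
  let M := IntermediateField.adjoin L (E : Set K)
  let inc : E →+* M :=
    { toFun := fun f => ⟨f, IntermediateField.subset_adjoin L _ f.2⟩
      map_one' := rfl
      map_mul' := fun _ _ => rfl
      map_zero' := rfl
      map_add' := fun _ _ => rfl }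
  let iA : Algebra E M := inc.toAlgebra
  have hT1 : IsScalarTower ℂ E M := IsScalarTower.of_algebraMap_eq fun c => rfl
  have hfdM : FiniteDimensional L M := inferInstance
  have hBM : ∀ (Q : Place ℂ M) (R : Place ℂ E) (e : ℕ), BE R → Over Q R e →
      ∀ (P : Place ℂ L) (e' : ℕ), Over Q P e' → BL P := by
    intro Q R e hR hQR P e' hQP
    have hT3 : IsScalarTower ℂ M K := IsScalarTower.of_algebraMap_eq fun c => rfl
    obtain ⟨Q', e'', hQ'⟩ := exists_above (K := M) (L := K) Q
    have h1 : Over Q' R (e'' * e) := by
      refine ⟨Nat.mul_pos hQ'.1 hQR.1, fun f => ?_⟩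
      have h2 : algebraMap E K f = algebraMap M K (algebraMap E M f) := rfl
      rw [h2, hQ'.2, hQR.2]
      push_cast
      ring
    have h2 : Over Q' P (e'' * e') := by
      refine ⟨Nat.mul_pos hQ'.1 hQP.1, fun f => ?_⟩
      rw [IsScalarTower.algebraMap_apply L M K, hQ'.2, hQP.2]
      push_cast
      ring
    have h3 := hB Q' R _ hR h1
    rwa [(bel_eq L h2).1] at h3
  have halgΩ : Algebra.IsAlgebraic L (AlgebraicClosure K) :=
    Algebra.IsAlgebraic.trans L K (AlgebraicClosure K)
  have hcL : CharZero L := charZero_of_injective_algebraMap (algebraMap ℂ L).injective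
  have hsepM : Algebra.IsSeparable L M := Algebra.IsAlgebraic.isSeparable_of_perfectField
  -- the coordinates
  have hxK : AlgebraicIndependent ℂ fun j => (x j : K) :=
    hx.1.map' (f := IsScalarTower.toAlgHom ℂ E K) (algebraMap E K).injective
  have hF0E : IntermediateField.adjoin ℂ (Set.range fun j => (x j : K)) ≤ E := by
    rw [IntermediateField.adjoin_le_iff]
    rintro _ ⟨j, rfl⟩
    exact (x j).2
  obtain ⟨t, ht⟩ := exists_compl hK hxK
  have hcK : CharZero K := charZero_of_injective_algebraMap (algebraMap ℂ K).injective
  obtain ⟨E1, hE1⟩ := Pool.Agent.Y173.QA.exists_duals ht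
  obtain ⟨F, hF⟩ : ∃ F : Fin n → Derivation ℂ K K, ∀ i j, F i (x j : K) = if i = j then 1 else 0 :=
    ⟨fun i => E1 (Fin.castAdd r i), fun i j => by
      have h1 := hE1 (Fin.castAdd r i) (Fin.castAdd r j)
      rw [Fin.append_left] at h1
      rw [h1]
      simp only [(Fin.castAdd_injective n r).eq_iff]⟩
  obtain ⟨UE, hUE, hdep⟩ := hfew
  obtain ⟨U, hU⟩ : ∃ U : Fin r → Derivation ℂ K K, ∀ a, U a = rho E (UE a) := ⟨_, fun _ => rfl⟩
  have hUz : ∀ a, ∀ f ∈ E, U a f = 0 := fun a f hf => by rw [hU]; exact rho_zero _ f hf
  have hUlin : LinearIndependent K U := by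
    have h1 : U = fun a => rho E (UE a) := funext hU
    rw [h1]
    exact hUE.map' (rho E) (LinearMap.ker_eq_bot.2 rho_inj)
  have hUx : ∀ a j, U a (x j : K) = 0 := fun a j => hUz a _ (x j).2
  have hdet := det_of_lin ht hUlin hUx
  choose F' hF' using fun i => exists_ext (Ω := AlgebraicClosure K) hK (F i)
  choose U' hU' using fun a => exists_ext (Ω := AlgebraicClosure K) hK (U a)
  -- the matrices
  let R : (M →ₐ[L] AlgebraicClosure K) → (Fin n ⊕ Fin r) → Fin n → AlgebraicClosure K :=
    fun τ v j => Sum.elim F' U' v (τ (algebraMap E M (x j)))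
  let ee : (M →ₐ[L] AlgebraicClosure K) → (E →ₐ[ℂ] AlgebraicClosure K) := fun τ =>
    (τ.restrictScalars ℂ).comp (IsScalarTower.toAlgHom ℂ E M)
  have hee : ∀ τ f, ee τ f = τ (algebraMap E M f) := fun _ _ => rfl
  have key : ∀ (τ : M →ₐ[L] AlgebraicClosure K) (a : Fin r) (j : Fin n),
      U' a (τ (algebraMap E M (x j))) = 0 := by
    by_contra hcon
    push Not at hcon
    obtain ⟨τ0, a0, j0, h0⟩ := hcon
    have hspan : ∀ (τ : M →ₐ[L] AlgebraicClosure K) (w : Fin n → AlgebraicClosure K),
        (∀ v, ∑ j, R τ v j * w j = 0) → w = 0 := by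
      intro τ w hw
      have hy : AlgebraicIndependent ℂ fun j => ee τ (x j) :=
        hx.1.map' (f := ee τ) (ee τ).injective
      exact span_rows (Ω := AlgebraicClosure K) hK ht hUx hdet hF hF' hU' hy hw
    obtain ⟨κ, τ1, hJ, hpos, hmax⟩ := exists_max2 R hspan (i := τ0) (a := a0) (j := j0) h0
    choose T hTv hTr using fun f : HX x BE =>
      exists_T (M := M) (L := L) (Ω := AlgebraicClosure K) hE hK hx hBM f.2
    -- the value on a combination
    have hTc : ∀ (f : HX x BE) (C : Fin n → (Fin n ⊕ Fin r) → K),
        algebraMap K (AlgebraicClosure K) (T f fun p => ∑ v, C p v • Sum.elim F U v) =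
          ∑ τ : M →ₐ[L] AlgebraicClosure K, (Matrix.of fun p j =>
            ∑ v, algebraMap K (AlgebraicClosure K) (C p v) * R τ v j :
              Matrix (Fin n) (Fin n) _).det * ee τ f := by
      intro f C
      rw [hTv f _ (fun p => ∑ v, algebraMap K (AlgebraicClosure K) (C p v) • Sum.elim F' U' v)
        (fun p y => ?_)]
      · refine Finset.sum_congr rfl fun τ _ => ?_
        congr 1
        congr 1
        ext p j
        rw [Matrix.of_apply, Matrix.of_apply, der_sum_app]
        rfl
      · rw [der_sum_app, der_sum_app, map_sum]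
        refine Finset.sum_congr rfl fun v _ => ?_
        rw [Derivation.smul_apply, Derivation.smul_apply, smul_eq_mul, smul_eq_mul, map_mul]
        congr 1
        rcases v with b | a
        · exact hF' b y
        · exact hU' a y
    -- the positions of the vertical rows
    obtain ⟨S, hSdef⟩ : ∃ S : Finset (Fin n), S = Finset.univ.filter fun p => (κ p).isRight :=
      ⟨_, rfl⟩
    have hScard : S.card = cnt κ := by rw [hSdef]; rfl
    have hSmem : ∀ p, p ∈ S ↔ (κ p).isRight = true := by
      intro p
      rw [hSdef, Finset.mem_filter]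
      simp
    let e0 : Fin (cnt κ) ≃ S := (Finset.equivFinOfCardEq hScard).symm
    let eS : Fin (cnt κ) ↪ Fin n := ⟨fun i => (e0 i : Fin n), fun i j hij =>
      e0.injective (Subtype.ext hij)⟩
    have heS : ∀ i, eS i ∈ S := fun i => (e0 i).2
    have heS' : ∀ p ∈ S, ∃ i, eS i = p := fun p hp => ⟨e0.symm ⟨p, hp⟩, by
      change ((e0 (e0.symm ⟨p, hp⟩) : S) : Fin n) = p
      rw [Equiv.apply_symm_apply]⟩
    have hsel : ∀ i, ∃ a : Fin r, κ (eS i) = Sum.inr a := fun i =>
      Sum.isRight_iff.1 ((hSmem _).1 (heS i))
    choose a ha using hsel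
    -- independence of the lifts
    have hind : ∀ (f : HX x BE) (Fw : Fin n → Derivation ℂ K K),
        (∀ i j, Fw i (x j : K) = if i = j then 1 else 0) →
        ∀ u : Fin (cnt κ) → Derivation E K K,
          T f (Function.extend eS (fun i => rho E (u i)) (fun p => Sum.elim Fw (fun _ => 0) (κ p)))
            = T f (Function.extend eS (fun i => rho E (u i))
                (fun p => Sum.elim F (fun _ => 0) (κ p))) := by
      intro f Fw hFw u
      choose c hc using fun b => span_of_det ht hUx hdet (D := Fw b - F b) (fun j => by
        rw [Derivation.sub_apply, hFw, hF, sub_self])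
      choose d hd using fun i => span_of_det ht hUx hdet (D := rho E (u i)) (fun j =>
        rho_zero _ _ (x j).2)
      let C0 : Fin n → (Fin n ⊕ Fin r) → K := Function.extend eS
        (fun i => Sum.elim (fun _ => 0) (d i))
        (fun p => Sum.elim (fun b => Sum.elim (fun b' => if b' = b then 1 else 0) fun _ => 0)
          (fun _ _ => 0) (κ p))
      let C1 : Fin n → (Fin n ⊕ Fin r) → K := Function.extend eS
        (fun i => Sum.elim (fun _ => 0) (d i))
        (fun p => Sum.elim (fun b => Sum.elim (fun b' => if b' = b then 1 else 0) (c b))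
          (fun _ _ => 0) (κ p))
      have hin : ∀ p, (∃ i, eS i = p) ∨ (p ∉ S ∧ ¬ (∃ i, eS i = p) ∧ ∃ b, κ p = Sum.inl b) := by
        intro p
        by_cases hp : p ∈ S
        · exact Or.inl (heS' p hp)
        · right
          refine ⟨hp, fun ⟨i, hi⟩ => hp (hi ▸ heS i), ?_⟩
          have h1 : ¬ (κ p).isRight = true := fun h => hp ((hSmem p).2 h)
          rcases hv : κ p with b | a'
          · exact ⟨b, rfl⟩
          · rw [hv] at h1
            exact absurd rfl h1
      have hC0 : ∀ p, Function.extend eS (fun i => rho E (u i))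
          (fun p => Sum.elim F (fun _ => 0) (κ p)) p = ∑ v, C0 p v • Sum.elim F U v := by
        intro p
        rcases hin p with ⟨i, rfl⟩ | ⟨-, hne, b, hb⟩
        · simp only [C0]
          rw [eS.injective.extend_apply, eS.injective.extend_apply, hd, Fintype.sum_sum_type]
          simp
        · simp only [C0]
          rw [Function.extend_apply' _ _ _ hne, Function.extend_apply' _ _ _ hne, hb,
            Fintype.sum_sum_type]
          simp
      have hC1 : ∀ p, Function.extend eS (fun i => rho E (u i))
          (fun p => Sum.elim Fw (fun _ => 0) (κ p)) p = ∑ v, C1 p v • Sum.elim F U v := by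
        intro p
        rcases hin p with ⟨i, rfl⟩ | ⟨-, hne, b, hb⟩
        · simp only [C1]
          rw [eS.injective.extend_apply, eS.injective.extend_apply, hd, Fintype.sum_sum_type]
          simp
        · simp only [C1]
          rw [Function.extend_apply' _ _ _ hne, Function.extend_apply' _ _ _ hne, hb,
            Fintype.sum_sum_type]
          have h1 : Fw b = F b + ∑ a, c b a • U a := by
            rw [← hc]
            abel
          simp [h1]
      rw [show Function.extend eS (fun i => rho E (u i))
          (fun p => Sum.elim F (fun _ => 0) (κ p)) = fun p => ∑ v, C0 p v • Sum.elim F U v from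
          funext hC0, show Function.extend eS (fun i => rho E (u i))
          (fun p => Sum.elim Fw (fun _ => 0) (κ p)) = fun p => ∑ v, C1 p v • Sum.elim F U v from
          funext hC1]
      apply (algebraMap K (AlgebraicClosure K)).injective
      rw [hTc, hTc]
      refine Finset.sum_congr rfl fun τ _ => ?_
      congr 1
      refine det_two (R τ) (fun κ' hκ' => hmax κ' τ hκ') hScard
        (C := fun p v => algebraMap K (AlgebraicClosure K) (C0 p v))
        (C' := fun p v => algebraMap K (AlgebraicClosure K) (C1 p v)) ?_ ?_ ?_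
      · intro p hp b
        obtain ⟨i, rfl⟩ := heS' p hp
        simp only [C0]
        rw [eS.injective.extend_apply]
        simp
      · intro p hp
        obtain ⟨i, rfl⟩ := heS' p hp
        funext v
        simp only [C0, C1]
        rw [eS.injective.extend_apply, eS.injective.extend_apply]
      · intro p hp b
        rcases hin p with ⟨i, rfl⟩ | ⟨-, hne, b', hb⟩
        · exact absurd (heS i) hp
        · simp only [C0, C1]
          rw [Function.extend_apply' _ _ _ hne, Function.extend_apply' _ _ _ hne, hb]
          simp
    -- the forms on the generic fibre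
    let φ : HX x BE → (Derivation E K K) [⋀^Fin (cnt κ)]→ₗ[K] K := fun f =>
      part (T f) (rho E) eS (fun p => Sum.elim F (fun _ => 0) (κ p))
    have hφreg : ∀ f, LogForm E r (fun w => BL (bel L (res w))) (φ f) := by
      intro f w hw D hD
      obtain ⟨r', rfl⟩ : ∃ r', r = r' + 1 := Nat.exists_eq_succ_of_ne_zero (by
        rintro rfl
        exact a0.elim0)
      obtain ⟨hdiv, Fw, hFw1, hFw2⟩ := exists_local hK hx hw
      have h1 : φ f D = T f (Function.extend eS (fun i => rho E (D i))
          (fun p => Sum.elim Fw (fun _ => 0) (κ p))) := by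
        rw [hind f Fw hFw2 D]
        rfl
      rw [h1, ← res_reg]
      refine hTr f (res w) hdiv _ ?_
      rcases hD with hD | ⟨hBw, hD⟩
      · left
        intro p
        by_cases hp : ∃ i, eS i = p
        · obtain ⟨i, rfl⟩ := hp
          rw [eS.injective.extend_apply]
          exact fun y => hD i y
        · rw [Function.extend_apply' _ _ _ hp]
          rcases κ p with b | a'
          · exact hFw1 b
          · intro y
            change (res w).Reg ((0 : Derivation ℂ K K) y / y)
            rw [Derivation.zero_apply, zero_div]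
            exact (res w).reg_zero
      · right
        refine ⟨hBw, fun p => ?_⟩
        by_cases hp : ∃ i, eS i = p
        · obtain ⟨i, rfl⟩ := hp
          rw [eS.injective.extend_apply]
          exact fun y hy => hD i y hy
        · rw [Function.extend_apply' _ _ _ hp]
          rcases κ p with b | a'
          · exact fun y hy => DerLog.ge (hFw1 b) hy
          · intro y _
            change (res w).Reg ((0 : Derivation ℂ K K) y)
            rw [Derivation.zero_apply]
            exact (res w).reg_zero
    have hTκ : ∀ f : HX x BE, algebraMap K (AlgebraicClosure K)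
        (φ f fun i => UE (a i)) = ∑ τ : M →ₐ[L] AlgebraicClosure K,
          (Matrix.of fun p j => R τ (κ p) j : Matrix (Fin n) (Fin n) _).det * ee τ f := by
      intro f
      have h1 : φ f (fun i => UE (a i)) = T f fun p => Sum.elim F U (κ p) := by
        change T f _ = _
        congr 1
        funext p
        by_cases hp : ∃ i, eS i = p
        · obtain ⟨i, rfl⟩ := hp
          rw [eS.injective.extend_apply, ha, Sum.elim_inr, hU]
        · rw [Function.extend_apply' _ _ _ hp]
          have hpS : p ∉ S := fun h => hp (heS' p h)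
          have h2 : ¬ (κ p).isRight = true := fun h => hpS ((hSmem p).2 h)
          rcases hv : κ p with b | a'
          · rfl
          · rw [hv] at h2
            exact absurd rfl h2
      rw [h1]
      refine hTv f _ (fun p => Sum.elim F' U' (κ p)) (fun p y => ?_)
      rcases κ p with b | a'
      · exact hF' b y
      · exact hU' a' y
    obtain ⟨m, hm, ψ, hψ⟩ := exists_span (E := E) (h := h)
      (fun f : HX x BE => φ f fun i => UE (a i))
      (fun fs => hdep (cnt κ) a hpos (fun i => φ (fs i)) fun i => hφreg _)
    have hcard : Fintype.card (M →ₐ[L] AlgebraicClosure K) = finrank L M :=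
      AlgHom.card L M (AlgebraicClosure K)
    have hT2 : IsScalarTower ℂ (algebraicClosure (IntermediateField.adjoin ℂ
        (Set.range fun j => (x j : K))) (AlgebraicClosure K)) (AlgebraicClosure K) :=
      IsScalarTower.of_algebraMap_eq fun c => rfl
    have h1 := gen_sep2 (N := algebraicClosure
        (IntermediateField.adjoin ℂ (Set.range fun j => (x j : K))) (AlgebraicClosure K))
      (H := HX x BE) (g := g) (h := h) (m := m) hS ee (fun τ τ' h => by
        refine IntermediateField.algHom_ext_of_eq_adjoin L rfl fun y hy => ?_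
        exact DFunLike.congr_fun h (⟨y, hy⟩ : E)) (by rw [hcard]; exact hg)
      (fun τ => (Matrix.of fun p j => R τ (κ p) j : Matrix (Fin n) (Fin n) _).det) hm
      (fun b => algebraMap K (AlgebraicClosure K) (ψ b)) (fun f hf => ?_) hJ
    · -- the contradiction
      have hp0 : ∃ p0, (κ p0).isRight = true := by
        obtain ⟨p0, hp0⟩ := Finset.card_pos.1 hpos
        exact ⟨p0, (Finset.mem_filter.1 hp0).2⟩
      obtain ⟨p0, hp0⟩ := hp0
      obtain ⟨a1, hκ⟩ := Sum.isRight_iff.1 hp0
      apply hJ
      apply Matrix.det_eq_zero_of_row_eq_zero p0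
      intro j
      rw [Matrix.of_apply, hκ]
      change U' a1 (τ1 (algebraMap E M (x j))) = 0
      have hcF : CharZero (IntermediateField.adjoin ℂ (Set.range fun j => (x j : K))) :=
        charZero_of_injective_algebraMap (algebraMap ℂ _).injective
      have hcN : CharZero (algebraicClosure
          (IntermediateField.adjoin ℂ (Set.range fun j => (x j : K))) (AlgebraicClosure K)) :=
        charZero_of_injective_algebraMap (algebraMap ℂ _).injective
      refine der_alg' (A := algebraicClosure
          (IntermediateField.adjoin ℂ (Set.range fun j => (x j : K))) (AlgebraicClosure K))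
        (fun b => ?_) (h1 (x j))
      refine der_alg' (A := IntermediateField.adjoin ℂ (Set.range fun j => (x j : K)))
        (fun f => ?_) (mem_algebraicClosure_iff.1 b.2)
      have h2 : algebraMap (IntermediateField.adjoin ℂ (Set.range fun j => (x j : K)))
        (AlgebraicClosure K) f = algebraMap K (AlgebraicClosure K) (f : K) := rfl
      rw [h2, hU', hUz a1 _ (hF0E f.2), map_zero]
    · obtain ⟨c, hc⟩ := hψ ⟨f, hf⟩
      refine ⟨fun b => ⟨algebraMap K (AlgebraicClosure K) (c b), ?_⟩, ?_⟩
      · exact mem_algebraicClosure_iff.2 (algE hx (c b).2).algebraMap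
      · rw [← hTκ ⟨f, hf⟩, hc, map_sum]
        refine Finset.sum_congr rfl fun b _ => ?_
        rw [map_mul]
        rfl
  have hσ : ∀ a, U' a (σ (⟨e, IntermediateField.subset_adjoin L _ he⟩ : M)) = 0 := by
    intro a
    exact der_emb (ee σ) (U' a) hx (fun j => key σ a j) ⟨e, he⟩
  exact const_alg hK (E := E) (fun j => (x j).2) hxK hUlin hUz hU' hσ

end

end Pool.Agent.T2h13.LG
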