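import Pool.Agent.T2h13.LG.Few
import Pool.Agent.T2h13.AF.Str

/-!
The structure of the images of fibrations of open varieties.
-/

set_option autoImplicit false
set_option linter.overlappingInstances false
set_option linter.unusedSectionVars false
set_option maxHeartbeats 4000000
set_option synthInstance.maxHeartbeats 400000

open FF Pool.Agent.W603.LV Pool.Agent.N162.BC IntermediateField
open Pool.Agent.W602.GT Pool.Agent.W619.PQ Pool.Agent.Y172
open Pool.Agent.N145.SX Pool.Agent.N145.PC Pool.Agent.N145.PL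
open Pool.Agent.N277.SX (emb emb_inj pts emb_mem card_pts sum_pts)
open Pool.Agent.Y184.NT (trForm trForm_pluri)
open Pool.Agent.R882.LT (SecAt)
open Module (finrank)
open Pool.Agent.T2h13.AF (base baseInc mem_base coeff_base finrank_le_of_deg res)

namespace Pool.Agent.T2h13.LG

/-- **Images of open varieties whose logarithmic forms separate points are of log general type.** -/
theorem GT (N E : Type) [Field N] [Field E] [Algebra ℂ N] [Algebra ℂ E] [Algebra N E]
    [IsScalarTower ℂ N E] [FiniteDimensional N E] [Algebra.EssFiniteType ℂ E] (m : ℕ)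
    (hm : Algebra.trdeg ℂ E = m) (x : Fin m → E) (hx : IsTranscendenceBasis ℂ x)
    {BE : Place ℂ E → Prop} {BN : Place ℂ N → Prop}
    (hB : ∀ (P : Place ℂ N) (Q : Place ℂ E) (e : ℕ), Over Q P e → BE Q → BN P) (g : ℕ)
    (hsep : SepX x BE g) (hdeg : 2 * finrank N E < g) : KodGe ℂ N m BN m := by
  classical
  have hessN : Algebra.EssFiniteType ℂ N := Pool.Agent.TH466.QG.ess_below (K := E)
  have hN : Algebra.trdeg ℂ N = m := Pool.Agent.Y184.NT.trdeg_below (K := E) hm
  obtain ⟨y, G, hy, hG⟩ := Pool.Agent.Y172.exists_crd hN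
  choose G' hG' using fun i => Pool.Agent.Y172.exists_lift (L := E) hN (G i)
  have hGE := Pool.Agent.Y172.lift_dual hG hG'
  obtain ⟨h, hdef⟩ : ∃ h, h = (Matrix.of fun i j => G' i (x j) :
    Matrix (Fin m) (Fin m) E).det := ⟨_, rfl⟩
  have hh : h ≠ 0 := by
    intro h0
    rw [hdef] at h0
    obtain ⟨v, hv, hv0⟩ := Matrix.exists_vecMul_eq_zero_iff.2 h0
    have happ : ∀ z : E, (∑ i, v i • G' i : Derivation ℂ E E) z = ∑ i, v i * G' i z := by
      intro z
      have h1 := map_sum (Derivation.coeFnAddMonoidHom (R := ℂ) (A := E) (M := E))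
        (fun i => v i • G' i) Finset.univ
      have h2 := congrFun h1 z
      rw [Finset.sum_apply] at h2
      exact h2
    have h1 : (∑ i, v i • G' i : Derivation ℂ E E) = 0 := by
      apply Pool.Agent.Y888.NT.der_ext' x hx
      intro j
      rw [happ]
      exact congrFun hv0 j
    apply hv
    funext j
    have h2 := happ (algebraMap N E (y j))
    rw [h1] at h2
    have h3 : ∑ i, v i * G' i (algebraMap N E (y j)) = v j := by
      rw [Finset.sum_eq_single j]
      · rw [hGE, if_pos rfl, mul_one]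
      · intro i _ hi
        rw [hGE, if_neg hi, mul_zero]
      · intro hj
        exact absurd (Finset.mem_univ j) hj
    rw [h3] at h2
    exact h2.symm
  obtain ⟨T, hT⟩ : ∃ T : {f : E // f ∈ HX x BE} → N,
    ∀ f, T f = Algebra.trace N E (h * (f : E)) := ⟨_, fun _ => rfl⟩
  have hreg : ∀ f, ∀ P : Place ℂ N, Divisorial m P → SecAt BN P (trForm y (T f)) := by
    intro f P hP
    have h1 := Pool.Agent.R882.LT.trForm_sec hN hy hG hG' (trForm x (f : E)) (trForm_pluri x _)
      hB (fun Q hQ => f.2 Q hQ) P hP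
    rw [hT, hdef]
    exact h1
  obtain ⟨τ0⟩ : Nonempty (E →ₐ[N] AlgebraicClosure N) :=
    ⟨IsAlgClosed.lift (R := N) (M := AlgebraicClosure N) (S := E)⟩
  have hT0 : ∃ f, T f ≠ 0 := by
    by_contra hcon
    push Not at hcon
    have h1 := hsep (AlgebraicClosure N) (pts (E := E) (AlgHom.id ℂ (AlgebraicClosure N)))
      (lt_of_le_of_lt (card_pts _) (by omega)) (fun σ => σ h) (by
        intro f hf
        have h2 := sum_pts (AlgHom.id ℂ (AlgebraicClosure N)) (h * f)
        have h3 := hcon ⟨f, hf⟩
        rw [hT] at h3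
        rw [h3, map_zero, map_zero] at h2
        rw [← h2]
        exact Finset.sum_congr rfl fun σ _ => (map_mul σ h f).symm) _
      (emb_mem (AlgHom.id ℂ (AlgebraicClosure N)) τ0)
    have h2 : τ0 h = 0 := h1
    exact hh (by simpa using h2)
  obtain ⟨f1, hf1⟩ := hT0
  obtain ⟨Ω', iF, iA, iC, i1, i2, lam, hlam, hlamT, hpts⟩ := exists_pts T hf1
  have hc := hsep Ω' (pts (E := E) i1 ∪ pts (E := E) i2)
    (lt_of_le_of_lt ((Finset.card_union_le _ _).trans
      (add_le_add (card_pts _) (card_pts _))) (by omega))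
    (fun σ => ((if σ ∈ pts (E := E) i2 then 1 else 0) -
      lam * (if σ ∈ pts (E := E) i1 then 1 else 0)) * σ h) (by
      intro f hf
      have e1 := sum_pts i1 (h * f)
      have e2 := sum_pts i2 (h * f)
      have e3 := hlamT ⟨f, hf⟩
      rw [hT] at e3
      have e4 : ∀ A B : Finset (E →ₐ[ℂ] Ω'), B ⊆ A →
          ∑ σ ∈ A, (if σ ∈ B then 1 else 0) * σ (h * f) = ∑ σ ∈ B, σ (h * f) := by
        intro A B hAB
        rw [← Finset.sum_subset hAB]
        · exact Finset.sum_congr rfl fun σ hσ => by rw [if_pos hσ, one_mul]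
        · intro σ _ hσ
          rw [if_neg hσ, zero_mul]
      have e5 := e4 _ _ (Finset.subset_union_left (s₁ := pts (E := E) i1) (s₂ := pts (E := E) i2))
      have e6 := e4 _ _ (Finset.subset_union_right (s₁ := pts (E := E) i1) (s₂ := pts (E := E) i2))
      have e7 : ∀ σ ∈ pts (E := E) i1 ∪ pts (E := E) i2,
          ((if σ ∈ pts (E := E) i2 then 1 else 0) -
            lam * (if σ ∈ pts (E := E) i1 then 1 else 0)) * σ h * σ f =
          (if σ ∈ pts (E := E) i2 then 1 else 0) * σ (h * f) -
            lam * ((if σ ∈ pts (E := E) i1 then 1 else 0) * σ (h * f)) := by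
        intro σ _
        rw [map_mul]
        ring
      rw [Finset.sum_congr rfl e7, Finset.sum_sub_distrib, ← Finset.mul_sum, e5, e6, e1, e2]
      exact sub_eq_zero.2 e3)
  have hex : ∃ τ : E →ₐ[N] AlgebraicClosure N, emb i2 τ = emb i1 τ0 := by
    by_contra hcon
    have h1 : emb i1 τ0 ∉ pts (E := E) i2 := by
      intro h2
      obtain ⟨τ, _, hτ⟩ := Finset.mem_image.1 h2
      exact hcon ⟨τ, hτ⟩
    have h2 := hc (emb i1 τ0) (Finset.mem_union_left _ (emb_mem i1 τ0))
    simp only [if_neg h1, if_pos (emb_mem i1 τ0)] at h2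
    rw [mul_one, zero_sub, neg_mul, neg_eq_zero, mul_eq_zero] at h2
    rcases h2 with h2 | h2
    · exact hlam h2
    · exact hh (by simpa using h2)
  obtain ⟨τ, hτ⟩ := hex
  refine kodGe_of_algL hN hG T ⟨f1, hf1⟩ hreg (trdeg_adj hx.1) fun j => ?_
  exact alg_back τ0 (hpts _ (τ (x j)) (DFunLike.congr_fun hτ (x j)).symm)


section

variable {K : Type} [Field K] [Algebra ℂ K] [Algebra.EssFiniteType ℂ K] {n r : ℕ}
  {L : Type} [Field L] [Algebra ℂ L] [Algebra L K] [IsScalarTower ℂ L K] [FiniteDimensional L K]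

/-- The boundary of the base of the fibration of the image: the places below the boundary `BE`. -/
def BZ (L : Type) [Field L] [Algebra ℂ L] [Algebra L K] [IsScalarTower ℂ L K]
    (E : IntermediateField ℂ K) (BE : Place ℂ E → Prop) (R : Place ℂ (base L E)) : Prop :=
  ∃ (R' : Place ℂ E) (e : ℕ), BE R' ∧ 0 < e ∧ ∀ f : base L E, R'.ord (baseInc L E f) = e * R.ord f

/-- **The structure of the image.** -/
theorem str {E : IntermediateField ℂ K} [Algebra.EssFiniteType ℂ E]
    (hE : Algebra.trdeg ℂ E = n) (hcl : ∀ z : K, IsAlgebraic E z → z ∈ E) {x : Fin n → E}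
    (hx : IsTranscendenceBasis ℂ x) {BE : Place ℂ E → Prop} {g : ℕ} (hS : SepX x BE g)
    (hg : 2 * finrank L (IntermediateField.adjoin L (E : Set K)) < g)
    (hsep : ∀ (σ : IntermediateField.adjoin L (E : Set K) →ₐ[L] AlgebraicClosure K) (e : K)
      (he : e ∈ E), IsAlgebraic (IntermediateField.adjoin ℂ (Set.range fun j => (x j : K)))
        (σ ⟨e, IntermediateField.subset_adjoin L _ he⟩)) :
    (∀ z : L, IsAlgebraic (base L E) z → z ∈ base L E) ∧
      Algebra.trdeg ℂ (base L E) = n ∧ (∀ e ∈ E, IsAlgebraic (base L E) (e : K)) ∧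
      KodGe ℂ (base L E) n (BZ L E BE) n := by
  classical
  let iA : Algebra (base L E) E := (baseInc L E).toAlgebra
  have hT1 : IsScalarTower ℂ (base L E) E := IsScalarTower.of_algebraMap_eq fun c =>
    Subtype.ext (IsScalarTower.algebraMap_apply ℂ L K c)
  -- the degrees
  have hdeg : ∀ e : E, IsIntegral (base L E) e ∧ (minpoly (base L E) e).natDegree ≤
      finrank L (IntermediateField.adjoin L (E : Set K)) := by
    intro e
    have hint : IsIntegral L (e : K) := Algebra.IsIntegral.isIntegral _
    have hmonic := minpoly.monic hint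
    have hlift : minpoly L (e : K) ∈ Polynomial.lifts (algebraMap (base L E) L) := by
      rw [Polynomial.lifts_iff_coeff_lifts]
      intro i
      exact ⟨⟨_, coeff_base hcl hsep e.2 i⟩, rfl⟩
    obtain ⟨q, hq, hqd, hqm⟩ := Polynomial.lifts_and_natDegree_eq_and_monic hlift hmonic
    have h0 : Polynomial.aeval e q = 0 := by
      apply Subtype.ext
      have h1 : ((Polynomial.aeval e q : E) : K) = Polynomial.aeval (e : K) (minpoly L (e : K)) := by
        rw [← hq, Polynomial.aeval_def, Polynomial.aeval_def, Polynomial.eval₂_map]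
        change E.val.toRingHom _ = _
        rw [Polynomial.hom_eval₂]
        rfl
      rw [h1, minpoly.aeval]
      rfl
    refine ⟨⟨q, hqm, h0⟩, ?_⟩
    have h1 : (minpoly (base L E) e).natDegree ≤ q.natDegree :=
      Polynomial.natDegree_le_of_dvd (minpoly.dvd _ _ h0) hqm.ne_zero
    refine h1.trans ?_
    rw [hqd]
    have hfd : FiniteDimensional L (IntermediateField.adjoin L (E : Set K)) := inferInstance
    have h2 := minpoly.natDegree_le (A := L)
      (⟨e, IntermediateField.subset_adjoin L _ e.2⟩ : IntermediateField.adjoin L (E : Set K))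
    have hmin : minpoly L (⟨e, IntermediateField.subset_adjoin L _ e.2⟩ :
        IntermediateField.adjoin L (E : Set K)) = minpoly L (e : K) :=
      (minpoly.algebraMap_eq (algebraMap (IntermediateField.adjoin L (E : Set K)) K).injective
        _).symm
    rwa [hmin] at h2
  have hess : Algebra.EssFiniteType (base L E) E := Algebra.EssFiniteType.of_comp ℂ (base L E) E
  have hcZ : CharZero (base L E) := charZero_of_injective_algebraMap (algebraMap ℂ _).injective
  obtain ⟨hfin, hrank⟩ := finrank_le_of_deg hdeg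
  have halg : Algebra.IsAlgebraic (base L E) E := inferInstance
  have htr : Algebra.trdeg ℂ (base L E) = n := Pool.Agent.Y184.NT.trdeg_below (K := E) hE
  refine ⟨fun z hz => ?_, htr, fun e he => ?_, ?_⟩
  · rw [mem_base]
    apply hcl
    have h1 : IsAlgebraic (base L E) (algebraMap L K z) := hz.algebraMap
    exact h1.ringHom_of_comp_eq (baseInc L E) (RingHom.id K) (baseInc L E).injective
      (by ext z; rfl)
  · have h1 := halg.isAlgebraic (⟨e, he⟩ : E)
    have h2 : IsScalarTower (base L E) E K := IsScalarTower.of_algebraMap_eq fun z => rfl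
    exact h1.algebraMap
  · exact GT (base L E) E n hE x hx (fun P Q e h hQ => ⟨Q, e, hQ, h.1, fun f => h.2 f⟩) g hS
      (by omega)

/-- **The structure of the image for few forms.** -/
theorem str_few (hK : Algebra.trdeg ℂ K = (n + r : ℕ)) {E : IntermediateField ℂ K}
    [Algebra.EssFiniteType ℂ E] (hE : Algebra.trdeg ℂ E = n)
    (hcl : ∀ z : K, IsAlgebraic E z → z ∈ E) {x : Fin n → E}
    (hx : IsTranscendenceBasis ℂ x) {BE : Place ℂ E → Prop} {BL : Place ℂ L → Prop}
    (hB : ImgBd E BE BL) {g h : ℕ} (hS : SepX x BE g) (hh : 1 ≤ h)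
    (hg : (h + 1) * finrank L (IntermediateField.adjoin L (E : Set K)) < g)
    (hfew : FewLog E r (fun w => BL (bel L (res w))) h) :
    (∀ z : L, IsAlgebraic (base L E) z → z ∈ base L E) ∧
      Algebra.trdeg ℂ (base L E) = n ∧ (∀ e ∈ E, IsAlgebraic (base L E) (e : K)) ∧
      KodGe ℂ (base L E) n (BZ L E BE) n := by
  refine str hE hcl hx hS (lt_of_le_of_lt (Nat.mul_le_mul_right _ (by omega)) hg) ?_
  exact fun σ e he => sep2 hK hE hx hB hS hg hfew σ e he

end

end Pool.Agent.T2h13.LG
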