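import Pool.Agent.T2h13.LG.Tr
import Pool.Agent.T2h13.AF.Loc

/-!
The trace of a logarithmic canonical form of the base as an alternating form on the total space.
-/

set_option autoImplicit false
set_option linter.overlappingInstances false
set_option linter.unusedSectionVars false
set_option maxHeartbeats 4000000
set_option synthInstance.maxHeartbeats 400000

open FF Pool.Agent.W603.LV Pool.Agent.Y184.NT Pool.Agent.N162.BC IntermediateField MvPolynomial
open Pool.Agent.W602.GT Pool.Agent.W619.PQ Pool.Agent.Y172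
open Pool.Agent.N145.SX (HX SepX)
open Module (finrank)
open Pool.Agent.T2h13.AF

namespace Pool.Agent.T2h13.LG

section

variable {K : Type} [Field K] [Algebra ℂ K] [Algebra.EssFiniteType ℂ K] {w n : ℕ}
  {L : Type} [Field L] [Algebra ℂ L] [Algebra L K] [IsScalarTower ℂ L K] [FiniteDimensional L K]
  {E M : Type} [Field E] [Algebra ℂ E] [Algebra.EssFiniteType ℂ E] [Field M] [Algebra ℂ M]
  [Algebra E M] [IsScalarTower ℂ E M] [Algebra L M] [IsScalarTower ℂ L M] [FiniteDimensional L M]
  {Ω : Type} [Field Ω] [Algebra ℂ Ω] [Algebra K Ω] [IsScalarTower ℂ K Ω] [Algebra L Ω]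
  [IsScalarTower L K Ω] [IsScalarTower ℂ L Ω] [IsAlgClosed Ω] [Algebra.IsAlgebraic L Ω]
  [Algebra.IsAlgebraic K Ω]

/-- **The trace of a canonical form of the base.** -/
theorem exists_T (hE : Algebra.trdeg ℂ E = n) (hK : Algebra.trdeg ℂ K = w)
    {x : Fin n → E} (hx : IsTranscendenceBasis ℂ x) {BE : Place ℂ E → Prop}
    {BL : Place ℂ L → Prop}
    (hB : ∀ (Q : Place ℂ M) (R : Place ℂ E) (e : ℕ), BE R → Over Q R e →
      ∀ (P : Place ℂ L) (e' : ℕ), Over Q P e' → BL P) {f : E} (hf : f ∈ HX x BE) :
    ∃ T : (Derivation ℂ K K) [⋀^Fin n]→ₗ[K] K,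
      (∀ (D : Fin n → Derivation ℂ K K) (D' : Fin n → Derivation ℂ Ω Ω),
        (∀ i f, D' i (algebraMap K Ω f) = algebraMap K Ω (D i f)) →
        algebraMap K Ω (T D) = ∑ τ : M →ₐ[L] Ω,
          (Matrix.of fun p j => D' p (τ (algebraMap E M (x j))) :
            Matrix (Fin n) (Fin n) Ω).det * τ (algebraMap E M f)) ∧
      ∀ Q : Place ℂ K, Divisorial w Q → ∀ D : Fin n → Derivation ℂ K K,
        ((∀ i, DerLog Q (D i)) ∨ (¬ BL (bel L Q) ∧ ∀ i, DerReg Q (D i))) → Q.Reg (T D) := by
  classical
  have hL : Algebra.trdeg ℂ L = w := Pool.Agent.Y184.NT.trdeg_below (K := K) hK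
  have hessL : Algebra.EssFiniteType ℂ L := Pool.Agent.TH466.QG.ess_below (K := K)
  choose ext hext using fun D : Derivation ℂ K K => exists_ext (Ω := Ω) hK D
  have hext_add : ∀ D1 D2, ext (D1 + D2) = ext D1 + ext D2 := by
    intro D1 D2
    apply ext_unique (Ω := Ω) hK
    intro f
    rw [Derivation.add_apply, hext, hext, hext, Derivation.add_apply, map_add]
  have hext_smul : ∀ (c : K) D1, ext (c • D1) = algebraMap K Ω c • ext D1 := by
    intro c D1
    apply ext_unique (Ω := Ω) hK
    intro f
    rw [Derivation.smul_apply, hext, hext, Derivation.smul_apply, smul_eq_mul, smul_eq_mul,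
      map_mul]
  choose s hs1 hs2 using fun D : Fin n → Derivation ℂ K K => trace_eval (M := M) (K := K) (Ω := Ω)
    hE hL hx hB hf D (fun i => ext (D i)) fun i f => hext (D i) f
  -- the value in the big field
  obtain ⟨V, hV⟩ : ∃ V : (Fin n → Derivation ℂ Ω Ω) → Ω, ∀ D', V D' = ∑ τ : M →ₐ[L] Ω,
      (Matrix.of fun p j => D' p (τ (algebraMap E M (x j))) :
        Matrix (Fin n) (Fin n) Ω).det * τ (algebraMap E M f) := ⟨_, fun _ => rfl⟩
  have hsV : ∀ D, algebraMap K Ω (s D) = V fun i => ext (D i) := by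
    intro D
    rw [hs1, hV]
  have hrow : ∀ (τ : M →ₐ[L] Ω) (D : Fin n → Derivation ℂ Ω Ω) (i : Fin n)
      (X : Derivation ℂ Ω Ω), (Matrix.of fun p j => Function.update D i X p
        (τ (algebraMap E M (x j))) : Matrix (Fin n) (Fin n) Ω) =
      Matrix.updateRow (Matrix.of fun p j => D p (τ (algebraMap E M (x j)))) i
        (fun j => X (τ (algebraMap E M (x j)))) := by
    intro τ D i X
    ext p j
    by_cases hp : p = i
    · subst hp
      rw [Matrix.of_apply, Function.update_self, Matrix.updateRow_self]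
    · rw [Matrix.of_apply, Function.update_of_ne hp, Matrix.updateRow_ne hp, Matrix.of_apply]
  have hupd : ∀ (D : Fin n → Derivation ℂ K K) (i : Fin n) (X : Derivation ℂ K K),
      (fun p => ext (Function.update D i X p)) =
        Function.update (fun p => ext (D p)) i (ext X) := by
    intro D i X
    funext p
    exact Function.apply_update (fun _ => ext) D i X p
  obtain ⟨T, hT⟩ : ∃ T : (Derivation ℂ K K) [⋀^Fin n]→ₗ[K] K, ∀ D, T D = s D := by
    refine ⟨{ toFun := s
              map_update_add' := ?_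
              map_update_smul' := ?_
              map_eq_zero_of_eq' := ?_ }, fun D => rfl⟩
    · intro hdec D i a c
      have hd : hdec = instDecidableEqFin n := Subsingleton.elim _ _
      subst hd
      apply (algebraMap K Ω).injective
      rw [map_add, hsV, hsV, hsV, hupd, hupd, hupd, hext_add, hV, hV, hV,
        ← Finset.sum_add_distrib]
      refine Finset.sum_congr rfl fun τ _ => ?_
      rw [hrow, hrow, hrow, ← add_mul]
      congr 1
      rw [← Matrix.det_updateRow_add]
      rfl
    · intro hdec D i a c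
      have hd : hdec = instDecidableEqFin n := Subsingleton.elim _ _
      subst hd
      apply (algebraMap K Ω).injective
      rw [smul_eq_mul, map_mul, hsV, hsV, hupd, hupd, hext_smul, hV, hV, Finset.mul_sum]
      refine Finset.sum_congr rfl fun τ _ => ?_
      rw [hrow, hrow, ← mul_assoc]
      congr 1
      rw [← Matrix.det_updateRow_smul]
      rfl
    · intro D i j hij hne
      apply (algebraMap K Ω).injective
      rw [map_zero]
      change algebraMap K Ω (s D) = 0
      rw [hsV, hV]
      refine Finset.sum_eq_zero fun τ _ => ?_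
      rw [Matrix.det_zero_of_row_eq hne (by
        funext l
        rw [Matrix.of_apply, Matrix.of_apply, hij]), zero_mul]
  refine ⟨T, fun D D' hD => ?_, fun Q hQ D hD => ?_⟩
  · have h1 : D' = fun i => ext (D i) := by
      funext i
      apply ext_unique (Ω := Ω) hK
      intro f
      rw [hD, hext]
    rw [hT, hsV, h1, hV]
  · rw [hT]
    exact hs2 D Q hQ hD

end


section

variable {K : Type} [Field K] [Algebra ℂ K]
variable [Algebra.EssFiniteType ℂ K] {n r : ℕ}

/-- **Logarithmic lifts of the vector fields of the base at the places of the generic fibre.** -/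
theorem exists_local (hK : Algebra.trdeg ℂ K = (n + (r + 1) : ℕ)) {E : IntermediateField ℂ K}
    {x : Fin n → E} (hx : IsTranscendenceBasis ℂ x) {w : Place E K} (hw : Divisorial (r + 1) w) :
    Divisorial (n + (r + 1)) (res w) ∧ ∃ F : Fin n → Derivation ℂ K K,
      (∀ j, DerLog (res w) (F j)) ∧ ∀ i j, F i (x j : K) = if i = j then 1 else 0 := by
  classical
  obtain ⟨y', hy'⟩ := hw
  have hfin : ∀ y : Fin (n + (r + 1)) → K, IsTranscendenceBasis ℂ y →
      FiniteDimensional (IntermediateField.adjoin ℂ (Set.range y)) K :=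
    fun y hy => Pool.Agent.W619.Y.fin_over y hy
  let y : Fin (n + r) → K := Fin.append (fun j => (x j : K)) y'
  have hyE : AlgebraicIndependent E y' := by
    rw [algebraicIndependent_iff]
    intro p hp
    by_contra hp0
    exact (hy' p hp0).1 hp
  have hyi : AlgebraicIndependent ℂ y := by
    have h1 := AlgebraicIndependent.sumElim_comp (R := ℂ) (A := K) hx.1 hyE
    have h2 : y = Sum.elim y' (algebraMap E K ∘ x) ∘
        ((Equiv.sumComm (Fin n) (Fin r)).symm.symm ∘ finSumFinEquiv.symm) := by
      funext i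
      refine Fin.addCases (fun j => ?_) (fun b => ?_) i
      · simp [y]
      · simp [y]
    rw [h2]
    exact h1.comp _ ((Equiv.injective _).comp (Equiv.injective _))
  let Φ : MvPolynomial (Fin (n + r)) ℂ →ₐ[ℂ] MvPolynomial (Fin r) E :=
    aeval (Fin.append (fun j => C (x j)) X)
  have hΦ : ∀ p, aeval y' (Φ p) = aeval y p := by
    intro p
    have h1 : ((aeval y' : MvPolynomial (Fin r) E →ₐ[E] K).restrictScalars ℂ).comp Φ =
        (aeval y : MvPolynomial (Fin (n + r)) ℂ →ₐ[ℂ] K) := by
      apply MvPolynomial.algHom_ext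
      intro i
      change aeval y' (Φ (X i)) = _
      rw [aeval_X, aeval_X]
      refine Fin.addCases (fun j => ?_) (fun b => ?_) i
      · simp [y]
      · simp [y]
    exact DFunLike.congr_fun h1 p
  have hy : ∀ p : MvPolynomial (Fin (n + r)) ℂ, p ≠ 0 →
      aeval y p ≠ 0 ∧ (res w).ord (aeval y p) = 0 := by
    intro p hp
    have h0 : aeval y p ≠ 0 := fun h => hp ((injective_iff_map_eq_zero _).1 hyi _ h)
    have h1 : Φ p ≠ 0 := by
      intro h
      apply h0
      rw [← hΦ, h, map_zero]
    refine ⟨h0, ?_⟩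
    have h2 := (hy' _ h1).2
    rw [← hΦ]
    exact h2
  obtain ⟨s, hs0, hs⟩ := (res w).surj
  obtain ⟨-, F, hF1, hF2⟩ := Pool.Agent.Y173.QA.frame_of (m := n + r) hK hfin (res w) hs hy
  refine ⟨⟨y, hy⟩, fun j => F (Fin.castAdd r j).succ, fun j => ?_, fun i j => ?_⟩
  · refine Pool.Agent.W619.TW.log_of_pres (res w) _ (fun g hg => hF2 _ g hg) hs0 hs ?_
    have h1 := hF1 (Fin.castAdd r j).succ 0
    rw [Fin.cons_zero, if_neg (Fin.succ_ne_zero _)] at h1
    rw [h1, zero_div]
    exact (res w).reg_zero
  have h1 := hF1 (Fin.castAdd r i).succ (Fin.castAdd r j).succ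
  have h2 : (Fin.cons s y : Fin (n + r + 1) → K) (Fin.castAdd r j).succ = (x j : K) := by
    rw [Fin.cons_succ]
    exact Fin.append_left _ _ j
  rw [h2] at h1
  rw [h1]
  simp only [Fin.succ_inj, (Fin.castAdd_injective n r).eq_iff]

end

end Pool.Agent.T2h13.LG
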